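import Pool.Agent.Work.MP_3e8c7a.Glue

/-!
# MP_3e8c7a_an: cubes, every proportion `α`
-/

namespace Pool.Agent.MP3e8c7a

open Module
open scoped Pointwise

section cpl

variable {V W : Type*} [AddCommGroup V] [Module ℝ V] [AddCommGroup W] [Module ℝ W]

/-- `r` is `C`-complemented in `ℓ_∞(ι)`. -/
def Cpl (C : ℝ) (ι : Type*) [Fintype ι] (r : Seminorm ℝ V) : Prop :=
  ∃ (u : V →ₗ[ℝ] (ι → ℝ)) (v : (ι → ℝ) →ₗ[ℝ] V), (∀ x, v (u x) = x) ∧ (∀ x, ‖u x‖ ≤ r x) ∧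
    ∀ y, r (v y) ≤ C * ‖y‖

lemma Cpl.of_iso {ι : Type*} [Fintype ι] {c : ℝ} (hc : 0 < c) {r : Seminorm ℝ V}
    (h : Iso c r (normSeminorm ℝ (ι → ℝ))) : Cpl c ι r := by
  obtain ⟨T, hT⟩ := h
  refine ⟨(c⁻¹ : ℝ) • (T : V →ₗ[ℝ] (ι → ℝ)), (c : ℝ) • (T.symm : (ι → ℝ) →ₗ[ℝ] V),
    fun x => ?_, fun x => ?_, fun y => ?_⟩
  · show c • T.symm (c⁻¹ • T x) = x
    rw [map_smul, smul_smul, mul_inv_cancel₀ hc.ne', one_smul, T.symm_apply_apply]
  · show ‖c⁻¹ • T x‖ ≤ r x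
    rw [norm_smul, Real.norm_eq_abs, abs_of_pos (inv_pos.2 hc), inv_mul_le_iff₀ hc]
    exact (hT x).2
  · show r (c • T.symm y) ≤ c * ‖y‖
    rw [map_smul_eq_mul, Real.norm_eq_abs, abs_of_pos hc]
    have := (hT (T.symm y)).1
    rw [T.apply_symm_apply] at this
    exact mul_le_mul_of_nonneg_left this hc.le

lemma Cpl.mono {ι : Type*} [Fintype ι] {c d : ℝ} (hcd : c ≤ d) {r : Seminorm ℝ V}
    (h : Cpl c ι r) : Cpl d ι r := by
  obtain ⟨u, v, h1, h2, h3⟩ := h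
  exact ⟨u, v, h1, h2, fun y => (h3 y).trans (mul_le_mul_of_nonneg_right hcd (norm_nonneg _))⟩

/-- Transport along an isomorphism. -/
lemma Cpl.trans {ι : Type*} [Fintype ι] {c d : ℝ} (hc : 0 < c)
    {p : Seminorm ℝ V} {r : Seminorm ℝ W} (h1 : Iso c p r) (h2 : Cpl d ι r) :
    Cpl (c * d) ι p := by
  obtain ⟨T, hT⟩ := h1
  obtain ⟨u, v, q1, q2, q3⟩ := h2
  refine ⟨(c⁻¹ : ℝ) • (u ∘ₗ (T : V →ₗ[ℝ] W)), (c : ℝ) • ((T.symm : W →ₗ[ℝ] V) ∘ₗ v),
    fun x => ?_, fun x => ?_, fun y => ?_⟩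
  · show c • T.symm (v (c⁻¹ • u (T x))) = x
    rw [map_smul, q1, map_smul, smul_smul, mul_inv_cancel₀ hc.ne', one_smul,
      T.symm_apply_apply]
  · show ‖c⁻¹ • u (T x)‖ ≤ p x
    rw [norm_smul, Real.norm_eq_abs, abs_of_pos (inv_pos.2 hc), inv_mul_le_iff₀ hc]
    exact (q2 (T x)).trans (hT x).2
  · show p (c • T.symm (v y)) ≤ c * d * ‖y‖
    rw [map_smul_eq_mul, Real.norm_eq_abs, abs_of_pos hc]
    have := (hT (T.symm (v y))).1
    rw [T.apply_symm_apply] at this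
    have h4 := this.trans (q3 y)
    have h5 := mul_le_mul_of_nonneg_left h4 hc.le
    linarith

/-- Direct sums. -/
lemma Cpl.ds {ι κ : Type*} [Fintype ι] [Fintype κ] {c d : ℝ} (hc : 0 ≤ c) (hd : 0 ≤ d)
    {p : Seminorm ℝ V} {r : Seminorm ℝ W} (h1 : Cpl c ι p) (h2 : Cpl d κ r) :
    Cpl (c + d) (ι ⊕ κ) (MP3e8c7a.ds p r) := by
  obtain ⟨u, v, p1, p2, p3⟩ := h1
  obtain ⟨u', v', q1, q2, q3⟩ := h2
  let E : ((ι ⊕ κ) → ℝ) ≃ₗ[ℝ] (ι → ℝ) × (κ → ℝ) := LinearEquiv.sumArrowLequivProdArrow ι κ ℝ ℝ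
  refine ⟨(E.symm : (ι → ℝ) × (κ → ℝ) →ₗ[ℝ] ((ι ⊕ κ) → ℝ)) ∘ₗ (u.prodMap u'),
    (v.prodMap v') ∘ₗ (E : ((ι ⊕ κ) → ℝ) →ₗ[ℝ] (ι → ℝ) × (κ → ℝ)), fun x => ?_, fun x => ?_,
    fun y => ?_⟩
  · show (v.prodMap v') (E (E.symm ((u.prodMap u') x))) = x
    rw [E.apply_symm_apply]
    exact Prod.ext (p1 x.1) (q1 x.2)
  · show ‖E.symm (u x.1, u' x.2)‖ ≤ p x.1 + r x.2
    rw [pi_norm_le_iff_of_nonneg (add_nonneg (apply_nonneg p _) (apply_nonneg r _))]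
    rintro (l | l)
    · have h4 : ‖u x.1 l‖ ≤ ‖u x.1‖ := norm_le_pi_norm _ _
      have h5 := p2 x.1
      have h6 := apply_nonneg r x.2
      show ‖u x.1 l‖ ≤ _
      linarith
    · have h4 : ‖u' x.2 l‖ ≤ ‖u' x.2‖ := norm_le_pi_norm _ _
      have h5 := q2 x.2
      have h6 := apply_nonneg p x.1
      show ‖u' x.2 l‖ ≤ _
      linarith
  · show p (v (E y).1) + r (v' (E y).2) ≤ (c + d) * ‖y‖
    have h4 : ‖(E y).1‖ ≤ ‖y‖ := by
      rw [pi_norm_le_iff_of_nonneg (norm_nonneg _)]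
      intro l
      exact norm_le_pi_norm y (Sum.inl l)
    have h5 : ‖(E y).2‖ ≤ ‖y‖ := by
      rw [pi_norm_le_iff_of_nonneg (norm_nonneg _)]
      intro l
      exact norm_le_pi_norm y (Sum.inr l)
    have h6 := p3 (E y).1
    have h7 := q3 (E y).2
    have h8 := mul_le_mul_of_nonneg_left h4 hc
    have h9 := mul_le_mul_of_nonneg_left h5 hd
    linarith

/-- The first summand. -/
lemma Cpl.fst {ι : Type*} [Fintype ι] {c : ℝ} {p : Seminorm ℝ V} {r : Seminorm ℝ W}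
    (h : Cpl c ι (MP3e8c7a.ds p r)) : Cpl c ι p := by
  obtain ⟨u, v, h1, h2, h3⟩ := h
  refine ⟨u ∘ₗ LinearMap.inl ℝ V W, LinearMap.fst ℝ V W ∘ₗ v, fun x => ?_, fun x => ?_,
    fun y => ?_⟩
  · show (v (u (x, 0))).1 = x
    rw [h1]
  · have := h2 (x, 0)
    rw [ds_apply, map_zero, add_zero] at this
    exact this
  · have := h3 y
    rw [ds_apply] at this
    have h4 := apply_nonneg r (v y).2
    show p (v y).1 ≤ c * ‖y‖
    linarith

lemma Cpl.reindex {ι : Type*} [Fintype ι] {c : ℝ} {p : Seminorm ℝ V} (h : Cpl c ι p) {N : ℕ}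
    (hN : Fintype.card ι = N) : Cpl c (Fin N) p := by
  obtain ⟨u, v, h1, h2, h3⟩ := h
  let e : ι ≃ Fin N := Fintype.equivFinOfCardEq hN
  let E : (ι → ℝ) ≃ₗ[ℝ] (Fin N → ℝ) := LinearEquiv.funCongrLeft ℝ ℝ e.symm
  have hE : ∀ (x : ι → ℝ) (l : Fin N), E x l = x (e.symm l) := fun x l => rfl
  have hE' : ∀ (x : Fin N → ℝ) (l : ι), E.symm x l = x (e l) := fun x l => by
    have := hE (E.symm x) (e l)
    rw [E.apply_symm_apply, e.symm_apply_apply] at this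
    exact this.symm
  refine ⟨(E : (ι → ℝ) →ₗ[ℝ] (Fin N → ℝ)) ∘ₗ u, v ∘ₗ (E.symm : (Fin N → ℝ) →ₗ[ℝ] (ι → ℝ)),
    fun x => ?_, fun x => ?_, fun y => ?_⟩
  · show v (E.symm (E (u x))) = x
    rw [E.symm_apply_apply, h1]
  · show ‖E (u x)‖ ≤ p x
    refine le_trans ?_ (h2 x)
    rw [pi_norm_le_iff_of_nonneg (norm_nonneg _)]
    intro l
    rw [hE]
    exact norm_le_pi_norm (u x) _
  · have h4 : ‖E.symm y‖ = ‖y‖ := by
      apply le_antisymm
      · rw [pi_norm_le_iff_of_nonneg (norm_nonneg _)]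
        intro l
        rw [hE']
        exact norm_le_pi_norm y _
      · rw [pi_norm_le_iff_of_nonneg (norm_nonneg _)]
        intro l
        have := norm_le_pi_norm (E.symm y) (e.symm l)
        rw [hE', e.apply_symm_apply] at this
        exact this
    have := h3 (E.symm y)
    rw [h4] at this
    exact this

end cpl

section main

variable {V : Type*} [AddCommGroup V] [Module ℝ V]

lemma ext0_res_ext0 (m N n : ℕ) (hm : m ≤ N) (hN : N ≤ n) (y : Fin m → ℝ) :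
    ext0 N n (res N n hN (ext0 m n y)) = ext0 m n y := by
  funext l
  show (if h : (l : ℕ) < N then (if h' : ((Fin.castLE hN ⟨l, h⟩ : Fin n) : ℕ) < m then
    y ⟨(Fin.castLE hN ⟨l, h⟩ : Fin n), h'⟩ else 0) else 0) =
    (if h' : (l : ℕ) < m then y ⟨l, h'⟩ else 0)
  by_cases h : (l : ℕ) < N
  · rw [dif_pos h]
    rfl
  · rw [dif_neg h, dif_neg (by omega)]

/-- The last coordinates. -/
def lastc (N ρ n : ℕ) (h : n = N + ρ) : (Fin n → ℝ) →ₗ[ℝ] (Fin ρ → ℝ) where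
  toFun x := fun l => x ⟨N + l, by omega⟩
  map_add' _ _ := rfl
  map_smul' _ _ := rfl

lemma norm_lastc_le (N ρ n : ℕ) (h : n = N + ρ) (x : Fin n → ℝ) : ‖lastc N ρ n h x‖ ≤ ‖x‖ := by
  rw [pi_norm_le_iff_of_nonneg (norm_nonneg _)]
  intro l
  exact norm_le_pi_norm x _

lemma lastc_ext0 (N ρ n : ℕ) (h : n = N + ρ) (a : Fin N → ℝ) :
    lastc N ρ n h (ext0 N n a) = 0 := by
  funext l
  show (if h' : ((⟨N + l, by omega⟩ : Fin n) : ℕ) < N then a ⟨_, h'⟩ else 0) = 0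
  rw [dif_neg (by simp)]

lemma norm_sub_ext0_le (N ρ n : ℕ) (h : n = N + ρ) (x : Fin n → ℝ) :
    ‖x - ext0 N n (res N n (by omega) x)‖ ≤ ‖lastc N ρ n h x‖ := by
  rw [pi_norm_le_iff_of_nonneg (norm_nonneg _)]
  intro l
  show ‖x l - (if h' : (l : ℕ) < N then x (Fin.castLE _ ⟨l, h'⟩) else 0)‖ ≤ _
  by_cases h' : (l : ℕ) < N
  · rw [dif_pos h']
    have : x (Fin.castLE (by omega : N ≤ n) ⟨l, h'⟩) = x l := rfl
    rw [this, sub_self, norm_zero]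
    exact norm_nonneg _
  · rw [dif_neg h', sub_zero]
    have h1 : (l : ℕ) - N < ρ := by omega
    have h2 := norm_le_pi_norm (lastc N ρ n h x) ⟨l - N, h1⟩
    have h3 : lastc N ρ n h x ⟨l - N, h1⟩ = x l := by
      show x ⟨N + (l - N), _⟩ = x l
      congr 1
      apply Fin.ext
      show N + (l - N) = l
      omega
    rwa [h3] at h2

/-- The remainder of a cube: `ρ` coordinates with `0 < ρ ≤ k`, sections of dimension `k + 1`. -/
theorem rem_cpl {b M c : ℝ} (hb : 1 ≤ b) (hM : 1 ≤ M) (hc : 1 ≤ c) {k N ρ n : ℕ}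
    (hn : n = N + ρ) (hρ : ρ ≤ k + 1) (hN : k + 1 ≤ N) {p r : Seminorm ℝ V}
    (H : Hyp b (k + 1) p r) (T : V ≃ₗ[ℝ] (Fin n → ℝ)) (hT1 : ∀ x, p x ≤ ‖T x‖)
    (hT2 : ∀ x, ‖T x‖ ≤ M * p x)
    (hA : Iso c (p.comp ((T.symm : (Fin n → ℝ) →ₗ[ℝ] V) ∘ₗ ext0 N n))
      (r.comp ((T.symm : (Fin n → ℝ) →ₗ[ℝ] V) ∘ₗ ext0 N n))) :
    Cpl ((1 + 2 * (c * M)) * (c * M + tc b (c * M) * (M + M)))
      (Fin N ⊕ (Fin ρ ⊕ Fin (k + 1 - ρ))) r := by
  have hcM : 1 ≤ c * M := by nlinarith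
  have : FiniteDimensional ℝ V := T.symm.finiteDimensional
  have hle : N ≤ n := by omega
  let i : (Fin N → ℝ) →ₗ[ℝ] V := (T.symm : (Fin n → ℝ) →ₗ[ℝ] V) ∘ₗ ext0 N n
  let φ : V →ₗ[ℝ] (Fin N → ℝ) := res N n hle ∘ₗ (T : V →ₗ[ℝ] (Fin n → ℝ))
  have hφ : ∀ a, φ (i a) = a := fun a => by
    show res N n hle (T (T.symm (ext0 N n a))) = a
    rw [LinearEquiv.apply_symm_apply, res_ext0]
  have q1 : ∀ a, p (i a) ≤ ‖a‖ := fun a => by
    have := hT1 (T.symm (ext0 N n a))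
    rw [LinearEquiv.apply_symm_apply] at this
    exact this.trans (norm_ext0_le N n a)
  have q2 : ∀ x, ‖φ x‖ ≤ M * p x := fun x =>
    (norm_res_le N n hle (T x)).trans (hT2 x)
  have hi : Function.Injective i := Function.LeftInverse.injective hφ
  have n1 : Iso M (p.comp i) (normSeminorm ℝ (Fin N → ℝ)) := by
    refine ⟨LinearEquiv.refl ℝ _, fun a => ⟨q1 a, ?_⟩⟩
    have := q2 (i a)
    rw [hφ] at this
    exact this
  have n2 : Iso (c * M) (r.comp i) (normSeminorm ℝ (Fin N → ℝ)) :=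
    (hA.symm (by linarith)).trans n1 (by linarith)
  obtain ⟨ψ, hψ1, hψ2⟩ := exists_proj (by linarith) r i hi n2
  have hP : ∀ x, p (i (φ x)) ≤ (c * M) * p x := by
    intro x
    have := (q1 (φ x)).trans (q2 x)
    have h0 := mul_nonneg (by linarith : (0 : ℝ) ≤ M) (apply_nonneg p x)
    nlinarith
  have hk : finrank ℝ (LinearMap.ker ψ) = ρ := by
    have h3 := LinearMap.finrank_range_add_finrank_ker ψ
    have h4 : LinearMap.range ψ = ⊤ :=
      LinearMap.range_eq_top.2 (Function.RightInverse.surjective hψ1)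
    rw [h4, finrank_top, Module.finrank_fintype_fun_eq_card, Fintype.card_fin,
      LinearEquiv.finrank_eq T, Module.finrank_fintype_fun_eq_card, Fintype.card_fin] at h3
    omega
  -- the extra coordinates
  let m := k + 1 - ρ
  let g : (Fin m → ℝ) →ₗ[ℝ] V := (T.symm : (Fin n → ℝ) →ₗ[ℝ] V) ∘ₗ ext0 m n
  have hmn : m ≤ n := by omega
  have hmN : m ≤ N := by omega
  have hTg : ∀ y, T (g y) = ext0 m n y := fun y => T.apply_symm_apply _
  have hg : Function.Injective g := by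
    have : Function.LeftInverse (res m n hmn ∘ₗ (T : V →ₗ[ℝ] (Fin n → ℝ))) g := fun y => by
      show res m n hmn (T (g y)) = y
      rw [hTg, res_ext0]
    exact this.injective
  have hPg : ∀ y, (i ∘ₗ φ) (g y) = g y := fun y => by
    show T.symm (ext0 N n (res N n hle (T (g y)))) = g y
    rw [hTg, ext0_res_ext0 m N n hmN hle]
    rfl
  have tl := tilt hb hcM H (i ∘ₗ φ) (i ∘ₗ ψ) (fun x => by simp [hφ]) (fun x => by simp [hψ1])
    hP hψ2 (LinearMap.ker ψ) (fun z hz => by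
      have : ψ z = 0 := hz
      simp [this]) g hg hPg (by
      rw [hk, Module.finrank_fintype_fun_eq_card, Fintype.card_fin]; omega)
  -- the p side is a cube
  have z1 : Iso M (p.comp ((LinearMap.id - i ∘ₗ φ) ∘ₗ (LinearMap.ker ψ).subtype))
      (normSeminorm ℝ (Fin ρ → ℝ)) := by
    let Ξ : LinearMap.ker ψ →ₗ[ℝ] (Fin ρ → ℝ) :=
      lastc N ρ n hn ∘ₗ (T : V →ₗ[ℝ] (Fin n → ℝ)) ∘ₗ (LinearMap.ker ψ).subtype
    have hTi : ∀ x, T (i (φ x)) = ext0 N n (res N n hle (T x)) := fun x =>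
      T.apply_symm_apply _
    have hΞ1 : ∀ z : LinearMap.ker ψ, p ((z : V) - i (φ z)) ≤ ‖Ξ z‖ := fun z => by
      have h1 := hT1 ((z : V) - i (φ z))
      rw [map_sub T, hTi] at h1
      exact h1.trans (norm_sub_ext0_le N ρ n hn (T z))
    have hΞ2 : ∀ z : LinearMap.ker ψ, ‖Ξ z‖ ≤ M * p ((z : V) - i (φ z)) := fun z => by
      have h1 := hT2 ((z : V) - i (φ z))
      have h2 : Ξ z = lastc N ρ n hn (T ((z : V) - i (φ z))) := by
        rw [map_sub, map_sub, hTi, lastc_ext0, sub_zero]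
        rfl
      rw [h2]
      exact (norm_lastc_le N ρ n hn _).trans h1
    have hinj : Function.Injective Ξ := by
      rw [← LinearMap.ker_eq_bot, LinearMap.ker_eq_bot']
      intro z hz
      have h1 : T ((z : V) - i (φ z)) = 0 := by
        rw [map_sub, hTi]
        have h2 := norm_sub_ext0_le N ρ n hn (T z)
        have h3 : lastc N ρ n hn (T z) = 0 := hz
        rw [h3, norm_zero] at h2
        exact norm_le_zero_iff.1 h2
      have h2 : (z : V) - i (φ z) = 0 := by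
        apply T.injective; rw [h1, map_zero]
      have h3 : (z : V) = i (φ z) := sub_eq_zero.1 h2
      have h4 : ψ (z : V) = 0 := z.2
      rw [h3, hψ1] at h4
      apply Subtype.ext
      rw [h3, h4, map_zero]
      rfl
    let Ξe : LinearMap.ker ψ ≃ₗ[ℝ] (Fin ρ → ℝ) := LinearMap.linearEquivOfInjective Ξ hinj (by
      rw [hk, Module.finrank_fintype_fun_eq_card, Fintype.card_fin])
    have hΞe : ∀ z, Ξe z = Ξ z := fun z => by simp [Ξe]
    refine ⟨Ξe, fun z => ⟨?_, ?_⟩⟩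
    · show p ((z : V) - i (φ z)) ≤ ‖Ξe z‖
      rw [hΞe]; exact hΞ1 z
    · show ‖Ξe z‖ ≤ M * p ((z : V) - i (φ z))
      rw [hΞe]; exact hΞ2 z
  have z2 : Iso M (p.comp g) (normSeminorm ℝ (Fin m → ℝ)) := by
    refine ⟨LinearEquiv.refl ℝ _, fun y => ⟨?_, ?_⟩⟩
    · show p (g y) ≤ ‖y‖
      have h1 := hT1 (g y)
      rw [hTg] at h1
      exact h1.trans (norm_ext0_le m n y)
    · show ‖y‖ ≤ M * p (g y)
      have h1 := hT2 (g y)
      rw [hTg] at h1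
      have h2 := norm_res_le m n hmn (ext0 m n y)
      rw [res_ext0] at h2
      exact h2.trans h1
  have hM0 : 0 < M := by linarith
  have w1 := Cpl.ds hM0.le hM0.le (Cpl.of_iso hM0 z1) (Cpl.of_iso hM0 z2)
  have ht := one_le_tc hb hcM
  have w2 : Cpl (tc b (c * M) * (M + M)) (Fin ρ ⊕ Fin m)
      (ds (r.comp (LinearMap.ker ψ).subtype) (r.comp g)) := Cpl.trans (by linarith) tl w1
  have w3 := Cpl.ds (by linarith) (by positivity) (Cpl.of_iso (by linarith) n2) w2.fst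
  exact Cpl.trans (by linarith) (splitR (r := r) i ψ hψ1 hψ2) w3

end main

/-- **Cubes, all proportions**, at the level of norms; `n = j (k + 1) + ρ` with `ρ ≤ k`, `j ≥ 1`. -/
theorem cubeAll_cpl (b M : ℝ) (hb : 1 ≤ b) (hM : 1 ≤ M) (j : ℕ) (hj : 1 ≤ j) : ∃ C : ℝ, 1 ≤ C ∧
    ∀ (k ρ n : ℕ) (V : Type) [AddCommGroup V] [Module ℝ V] (p r : Seminorm ℝ V), Def p →
      n = j * (k + 1) + ρ → ρ ≤ k → Hyp b (k + 1) p r →
      Iso M p (normSeminorm ℝ (Fin n → ℝ)) →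
      ∃ N : ℕ, (k + 1) ∣ N ∧ n ≤ N ∧ N < n + (k + 1) ∧ Cpl C (Fin N) r := by
  obtain ⟨c, hc, hI⟩ := cube_iso (25 * b) M (by linarith) hM j
  have hcM : 1 ≤ c * M := by nlinarith
  have ht := one_le_tc hb hcM
  let C := (1 + 2 * (c * M)) * (c * M + tc b (c * M) * (M + M))
  have hC1 : c * M ≤ C := by
    show c * M ≤ (1 + 2 * (c * M)) * (c * M + tc b (c * M) * (M + M))
    have h1 : 0 ≤ tc b (c * M) * (M + M) := by positivity
    nlinarith
  refine ⟨C, hcM.trans hC1, ?_⟩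
  intro k ρ n V _ _ p r hp hn hρ H hV
  obtain ⟨T, hT⟩ := hV
  have : FiniteDimensional ℝ V := T.symm.finiteDimensional
  have hfr : finrank ℝ V = n := by
    rw [LinearEquiv.finrank_eq T, Module.finrank_fintype_fun_eq_card, Fintype.card_fin]
  have hjk : k + 1 ≤ j * (k + 1) := Nat.le_mul_of_pos_left _ (by omega)
  have H0 : Hyp (25 * b) k p r := H.pred hb hp (by omega)
  have H1 : Hyp (25 * b) (k + 1) p r := H.mono (by linarith)
  have hlow : j * k ≤ j * (k + 1) := Nat.mul_le_mul_left j (Nat.le_succ k)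
  rcases Nat.eq_zero_or_pos ρ with h0 | h0
  · subst h0
    rw [add_zero] at hn
    have hV : Iso M p (normSeminorm ℝ (Fin n → ℝ)) := ⟨T, hT⟩
    have h1 := hI k n V p r (by omega) (by omega) H1 H0 hV
    have h2 : Iso (c * M) r (normSeminorm ℝ (Fin n → ℝ)) :=
      (h1.symm (by linarith)).trans hV (by linarith)
    exact ⟨n, ⟨j, by rw [hn]; ring⟩, le_refl _, by omega,
      (Cpl.of_iso (by linarith) h2).mono hC1⟩
  · have hle : j * (k + 1) ≤ n := by omega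
    let i : (Fin (j * (k + 1)) → ℝ) →ₗ[ℝ] V :=
      (T.symm : (Fin n → ℝ) →ₗ[ℝ] V) ∘ₗ ext0 (j * (k + 1)) n
    have hTi : ∀ a, T (i a) = ext0 (j * (k + 1)) n a := fun a => T.apply_symm_apply _
    have hi : Function.Injective i := by
      have : Function.LeftInverse (res (j * (k + 1)) n hle ∘ₗ (T : V →ₗ[ℝ] (Fin n → ℝ))) i :=
        fun y => by
          show res (j * (k + 1)) n hle (T (i y)) = y
          rw [hTi, res_ext0]
      exact this.injective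
    have n1 : Iso M (p.comp i) (normSeminorm ℝ (Fin (j * (k + 1)) → ℝ)) := by
      refine ⟨LinearEquiv.refl ℝ _, fun y => ⟨?_, ?_⟩⟩
      · show p (i y) ≤ ‖y‖
        have h1 := (hT (i y)).1
        rw [hTi] at h1
        exact h1.trans (norm_ext0_le _ n y)
      · show ‖y‖ ≤ M * p (i y)
        have h1 := (hT (i y)).2
        rw [hTi] at h1
        have h2 := norm_res_le _ n hle (ext0 (j * (k + 1)) n y)
        rw [res_ext0] at h2
        exact h2.trans h1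
    have hA := hI k (j * (k + 1)) _ (p.comp i) (r.comp i) hlow (le_refl _) (H1.comp i hi)
      (H0.comp i hi) n1
    have h2 := rem_cpl hb hM hc hn (by omega) hjk H T (fun x => (hT x).1) (fun x => (hT x).2) hA
    refine ⟨(j + 1) * (k + 1), ⟨j + 1, by ring⟩, ?_, ?_, ?_⟩
    · have : (j + 1) * (k + 1) = j * (k + 1) + (k + 1) := by ring
      omega
    · have : (j + 1) * (k + 1) = j * (k + 1) + (k + 1) := by ring
      omega
    · refine h2.reindex ?_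
      rw [Fintype.card_sum, Fintype.card_sum, Fintype.card_fin, Fintype.card_fin,
        Fintype.card_fin]
      have : (j + 1) * (k + 1) = j * (k + 1) + (k + 1) := by ring
      omega

theorem cubeAll_dist (α b M : ℝ) (hα : 0 < α) (hα1 : α < 1) (hM : 1 ≤ M) : ∃ C : ℝ, 1 ≤ C ∧
    ∀ n : ℕ, 0 < n → ∀ K L : Set (Fin n → ℝ), IsBody K → IsBody L →
      SectionsClose ⌈α * n⌉₊ b K L → CubeLike M K →
      ∃ N : ℕ, ⌈α * n⌉₊ ∣ N ∧ n ≤ N ∧ N < n + ⌈α * n⌉₊ ∧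
        ∃ (u : (Fin n → ℝ) →ₗ[ℝ] (Fin N → ℝ)) (v : (Fin N → ℝ) →ₗ[ℝ] (Fin n → ℝ)),
          (∀ x, v (u x) = x) ∧ (∀ x ∈ L, ∀ i, |u x i| ≤ 1) ∧
          ∀ y, (∀ i, |y i| ≤ 1) → v y ∈ C • L := by
  have hb : 1 ≤ |b| + 1 := by linarith [abs_nonneg b]
  have hex : ∀ j : ℕ, ∃ C : ℝ, 1 ≤ C ∧ (1 ≤ j → ∀ (k ρ n : ℕ) (V : Type) [AddCommGroup V]
      [Module ℝ V] (p r : Seminorm ℝ V), Def p → n = j * (k + 1) + ρ → ρ ≤ k →
      Hyp (|b| + 1) (k + 1) p r → Iso M p (normSeminorm ℝ (Fin n → ℝ)) →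
      ∃ N : ℕ, (k + 1) ∣ N ∧ n ≤ N ∧ N < n + (k + 1) ∧ Cpl C (Fin N) r) := by
    intro j
    by_cases hj : 1 ≤ j
    · obtain ⟨C, h1, h2⟩ := cubeAll_cpl (|b| + 1) M hb hM j hj
      exact ⟨C, h1, fun _ => h2⟩
    · exact ⟨1, le_refl _, fun h => absurd h hj⟩
  choose c hc1 hc2 using hex
  let J : ℕ := ⌈1 / α⌉₊
  have hCj : ∀ j ≤ J, c j ≤ ∑ j ∈ Finset.range (J + 1), c j := fun j hj =>
    Finset.single_le_sum (f := c) (fun i _ => by linarith [hc1 i])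
      (Finset.mem_range.2 (by omega))
  have hC1 : 1 ≤ ∑ j ∈ Finset.range (J + 1), c j := (hc1 0).trans (hCj 0 (Nat.zero_le _))
  refine ⟨∑ j ∈ Finset.range (J + 1), c j, hC1, ?_⟩
  intro n hn K L hK hL hS hcube
  have hn0 : (0 : ℝ) < n := by exact_mod_cast hn
  have hk0 : 0 < ⌈α * n⌉₊ := Nat.ceil_pos.2 (by positivity)
  have hkn : ⌈α * n⌉₊ ≤ n := by
    refine Nat.ceil_le.2 ?_
    nlinarith
  obtain ⟨k, hk⟩ : ∃ k, ⌈α * n⌉₊ = k + 1 := ⟨⌈α * n⌉₊ - 1, by omega⟩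
  have hkα : α * n ≤ (k + 1 : ℕ) := by
    rw [← hk]; exact Nat.le_ceil _
  rw [hk] at hS hkn ⊢
  have hj1 : 1 ≤ n / (k + 1) := (Nat.one_le_div_iff (by omega)).2 hkn
  have hjJ : n / (k + 1) ≤ J := by
    have h1 : n / (k + 1) * (k + 1) ≤ n := Nat.div_mul_le_self n (k + 1)
    have h2 : ((n / (k + 1) : ℕ) : ℝ) * ((k + 1 : ℕ) : ℝ) ≤ n := by exact_mod_cast h1
    have h3 : ((n / (k + 1) : ℕ) : ℝ) ≤ 1 / α := by
      rw [le_div_iff₀ hα]
      have h4 : ((n / (k + 1) : ℕ) : ℝ) * (α * n) ≤ n :=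
        (mul_le_mul_of_nonneg_left hkα (Nat.cast_nonneg _)).trans h2
      have h5 : (((n / (k + 1) : ℕ) : ℝ) * α) * n ≤ 1 * n := by linarith
      exact le_of_mul_le_mul_right h5 hn0
    exact_mod_cast h3.trans (Nat.le_ceil _)
  have hnd : n = n / (k + 1) * (k + 1) + n % (k + 1) := (Nat.div_add_mod' n (k + 1)).symm
  have hρ : n % (k + 1) ≤ k := Nat.lt_succ_iff.1 (Nat.mod_lt _ (by omega))
  obtain ⟨p, hp, hKp⟩ := hK.exists_seminorm
  obtain ⟨r, hr, hLr⟩ := hL.exists_seminorm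
  have H : Hyp (|b| + 1) (k + 1) p r := hS.hyp hp hr hKp hLr
  obtain ⟨N, hN1, hN2, hN3, hN4⟩ := hc2 (n / (k + 1)) hj1 k (n % (k + 1)) n (Fin n → ℝ) p r hp
    hnd hρ H (hcube.data hM hp hKp)
  obtain ⟨u, v, h1, h2, h3⟩ := hN4.mono (hCj _ hjJ)
  refine ⟨N, hN1, hN2, hN3, u, v, h1, fun x hx i => ?_, fun y hy => ?_⟩
  · have h4 := (h2 x).trans ((hLr x).1 hx)
    exact (norm_le_pi_norm (u x) i).trans h4
  · have h4 : ‖y‖ ≤ 1 := by
      rw [pi_norm_le_iff_of_nonneg zero_le_one]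
      exact hy
    have hC0 : 0 < ∑ j ∈ Finset.range (J + 1), c j := by linarith
    rw [Set.mem_smul_set_iff_inv_smul_mem₀ hC0.ne', hLr, map_smul_eq_mul, Real.norm_eq_abs,
      abs_of_pos (inv_pos.2 hC0), inv_mul_le_iff₀ hC0]
    have h5 := h3 y
    nlinarith [mul_le_mul_of_nonneg_left h4 hC0.le]

end Pool.Agent.MP3e8c7a
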