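import Mathlib

/-!
# MP_3e8c7a_an: the tilt and scale lemma

Norms are seminorms `p : Seminorm ℝ V`. `Iso c p r` says that there is a linear isomorphism `T`
with `p x ≤ r (T x) ≤ c * p x`.
-/

namespace Pool.Agent.MP3e8c7a

open Module

section basic

variable {V W U : Type*} [AddCommGroup V] [Module ℝ V] [AddCommGroup W] [Module ℝ W]
  [AddCommGroup U] [Module ℝ U]

/-- There is a linear isomorphism `T` with `p x ≤ r (T x) ≤ c * p x`. -/
def Iso (c : ℝ) (p : Seminorm ℝ V) (r : Seminorm ℝ W) : Prop :=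
  ∃ T : V ≃ₗ[ℝ] W, ∀ x, p x ≤ r (T x) ∧ r (T x) ≤ c * p x

lemma Iso.of_bounds {p : Seminorm ℝ V} {r : Seminorm ℝ W} (T : V ≃ₗ[ℝ] W) {A B : ℝ}
    (hA : 0 < A) (h1 : ∀ x, p x ≤ A * r (T x)) (h2 : ∀ x, r (T x) ≤ B * p x) :
    Iso (A * B) p r := by
  refine ⟨T.trans (LinearEquiv.smulOfNeZero ℝ W A hA.ne'), fun x => ?_⟩
  have e : r ((T.trans (LinearEquiv.smulOfNeZero ℝ W A hA.ne')) x) = A * r (T x) := by
    have : (T.trans (LinearEquiv.smulOfNeZero ℝ W A hA.ne')) x = A • T x := rfl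
    rw [this, map_smul_eq_mul, Real.norm_eq_abs, abs_of_pos hA]
  rw [e]
  refine ⟨h1 x, ?_⟩
  have := mul_le_mul_of_nonneg_left (h2 x) hA.le
  linarith

lemma Iso.refl (p : Seminorm ℝ V) : Iso 1 p p :=
  ⟨LinearEquiv.refl ℝ V, fun x => ⟨le_refl _, by simp⟩⟩

lemma Iso.mono {p : Seminorm ℝ V} {r : Seminorm ℝ W} {c d : ℝ} (h : Iso c p r) (hcd : c ≤ d) :
    Iso d p r := by
  obtain ⟨T, hT⟩ := h
  exact ⟨T, fun x => ⟨(hT x).1, (hT x).2.trans
    (mul_le_mul_of_nonneg_right hcd (apply_nonneg p x))⟩⟩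

lemma Iso.symm {p : Seminorm ℝ V} {r : Seminorm ℝ W} {c : ℝ} (h : Iso c p r) (hc : 0 < c) :
    Iso c r p := by
  obtain ⟨T, hT⟩ := h
  have := Iso.of_bounds (p := r) (r := p) T.symm (A := c) (B := 1) hc
    (fun y => by have := (hT (T.symm y)).2; simpa using this)
    (fun y => by have := (hT (T.symm y)).1; simpa using this)
  rwa [mul_one] at this

lemma Iso.trans {p : Seminorm ℝ V} {r : Seminorm ℝ W} {s : Seminorm ℝ U} {c d : ℝ}
    (h1 : Iso c p r) (h2 : Iso d r s) (hd : 0 ≤ d) : Iso (c * d) p s := by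
  obtain ⟨T, hT⟩ := h1
  obtain ⟨S, hS⟩ := h2
  refine ⟨T.trans S, fun x => ⟨(hT x).1.trans (hS (T x)).1, ?_⟩⟩
  have a := (hS (T x)).2
  have b := mul_le_mul_of_nonneg_left (hT x).2 hd
  have e : (T.trans S) x = S (T x) := rfl
  rw [e]
  nlinarith

/-- Direct sum with the sum norm. -/
noncomputable def ds (p : Seminorm ℝ V) (r : Seminorm ℝ W) : Seminorm ℝ (V × W) :=
  p.comp (LinearMap.fst ℝ V W) + r.comp (LinearMap.snd ℝ V W)

@[simp] lemma ds_apply (p : Seminorm ℝ V) (r : Seminorm ℝ W) (x : V × W) :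
    ds p r x = p x.1 + r x.2 := rfl

lemma Iso.ds {V' W' : Type*} [AddCommGroup V'] [Module ℝ V'] [AddCommGroup W'] [Module ℝ W']
    {p : Seminorm ℝ V} {r : Seminorm ℝ W} {p' : Seminorm ℝ V'} {r' : Seminorm ℝ W'} {c : ℝ}
    (h1 : Iso c p p') (h2 : Iso c r r') : Iso c (ds p r) (MP3e8c7a.ds p' r') := by
  obtain ⟨T, hT⟩ := h1
  obtain ⟨S, hS⟩ := h2
  refine ⟨T.prodCongr S, fun x => ?_⟩
  have e : (T.prodCongr S) x = (T x.1, S x.2) := rfl
  rw [e]
  simp only [ds_apply]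
  have h1 := hT x.1
  have h2 := hS x.2
  constructor
  · linarith [h1.1, h2.1]
  · linarith [h1.2, h2.2]

/-- All `k`-dimensional sections of `p` and `r` are `b`-isomorphic. -/
def Hyp (b : ℝ) (k : ℕ) (p r : Seminorm ℝ V) : Prop :=
  ∀ E : Submodule ℝ V, finrank ℝ E = k → Iso b (p.comp E.subtype) (r.comp E.subtype)

lemma Hyp.mono {b b' : ℝ} {k : ℕ} {p r : Seminorm ℝ V} (h : Hyp b k p r) (hb : b ≤ b') :
    Hyp b' k p r := fun E hE => (h E hE).mono hb

lemma Hyp.inj {b : ℝ} {k : ℕ} {p r : Seminorm ℝ V} (h : Hyp b k p r) (u : W →ₗ[ℝ] V)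
    (hu : Function.Injective u) (hW : finrank ℝ W = k) : Iso b (p.comp u) (r.comp u) := by
  let e : W ≃ₗ[ℝ] LinearMap.range u := LinearEquiv.ofInjective u hu
  have hE : finrank ℝ (LinearMap.range u) = k := by
    rw [← hW]; exact (LinearEquiv.finrank_eq e).symm
  obtain ⟨T, hT⟩ := h _ hE
  have hT' : ∀ z : LinearMap.range u, p z ≤ r (T z) ∧ r (T z) ≤ b * p z := fun z => hT z
  refine ⟨(e.trans T).trans e.symm, fun x => ?_⟩
  have h1 : (r.comp u) (((e.trans T).trans e.symm) x) = r ((T (e x) : LinearMap.range u) : V) := by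
    have : u (e.symm (T (e x))) = ((T (e x) : LinearMap.range u) : V) := by
      have := LinearEquiv.apply_symm_apply e (T (e x))
      have h2 := congrArg (fun z : LinearMap.range u => (z : V)) this
      exact h2
    show r (u (e.symm (T (e x)))) = _
    rw [this]
  have h2 : (p.comp u) x = p ((e x : LinearMap.range u) : V) := rfl
  rw [h1, h2]
  exact hT' (e x)

lemma Hyp.comp {b : ℝ} {k : ℕ} {p r : Seminorm ℝ V} (h : Hyp b k p r) (u : W →ₗ[ℝ] V)
    (hu : Function.Injective u) : Hyp b k (p.comp u) (r.comp u) := by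
  intro E hE
  exact h.inj (u ∘ₗ E.subtype) (hu.comp Subtype.val_injective) hE

end basic

section tilt

lemma est1 {lam y a c u : ℝ} (hl : 0 ≤ lam) (hy : 0 ≤ y) (h1 : u ≤ a + c)
    (h2 : a ≤ (1 + lam) * y) (h3 : 1 / 2 * c ≤ lam * y) : u ≤ 2 * (1 + 2 * lam) * y := by
  nlinarith [mul_nonneg hl hy]

lemma est2 {lam y a c u : ℝ} (hl : 0 ≤ lam) (hy : 0 ≤ y) (h1 : u ≤ a + 1 / 2 * c)
    (h2 : a ≤ (1 + lam) * y) (h3 : c ≤ lam * y) : u ≤ (1 + 2 * lam) * y := by
  nlinarith [mul_nonneg hl hy]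

lemma est3 {lam y a c u : ℝ} (hl : 0 ≤ lam) (hy : 0 ≤ y) (h1 : u ≤ a + c)
    (h2 : a ≤ (1 + lam) * y) (h3 : 2 * c ≤ lam * y) : u ≤ (1 + 2 * lam) * y := by
  nlinarith [mul_nonneg hl hy]

lemma est4 {lam y a c u : ℝ} (hl : 0 ≤ lam) (hy : 0 ≤ y) (h1 : u ≤ a + 2 * c)
    (h2 : a ≤ (1 + lam) * y) (h3 : c ≤ lam * y) : u ≤ 2 * (1 + 2 * lam) * y := by
  nlinarith [mul_nonneg hl hy]

variable {V B : Type*} [AddCommGroup V] [Module ℝ V] [AddCommGroup B] [Module ℝ B]

/-- The tilted map `(z, g) ↦ z - t P z + g`. -/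
noncomputable def um (P : V →ₗ[ℝ] V) (Z : Submodule ℝ V) (g : B →ₗ[ℝ] V) (t : ℝ) :
    (Z × B) →ₗ[ℝ] V :=
  (LinearMap.id - t • P) ∘ₗ Z.subtype ∘ₗ LinearMap.fst ℝ Z B + g ∘ₗ LinearMap.snd ℝ Z B

@[simp] lemma um_apply (P : V →ₗ[ℝ] V) (Z : Submodule ℝ V) (g : B →ₗ[ℝ] V) (t : ℝ) (x : Z × B) :
    um P Z g t x = (x.1 : V) - t • P (x.1 : V) + g x.2 := rfl

/-- Scaling of the second coordinate. -/
noncomputable def sc (Z : Type*) [AddCommGroup Z] [Module ℝ Z] (B : Type*) [AddCommGroup B]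
    [Module ℝ B] (a : ℝ) (ha : a ≠ 0) : (Z × B) ≃ₗ[ℝ] (Z × B) :=
  (LinearEquiv.refl ℝ Z).prodCongr (LinearEquiv.smulOfNeZero ℝ B a ha)

@[simp] lemma sc_apply (Z : Type*) [AddCommGroup Z] [Module ℝ Z] (a : ℝ) (ha : a ≠ 0)
    (x : Z × B) : sc Z B a ha x = (x.1, a • x.2) := rfl

/-- **Tilt and scale lemma.** -/
theorem tilt {b lam : ℝ} (hb : 1 ≤ b) (hlam : 1 ≤ lam) {k : ℕ} {p r : Seminorm ℝ V}
    (H : Hyp b k p r) (P Q : V →ₗ[ℝ] V) (hPQ : ∀ x, P (Q x) = Q x) (hQP : ∀ x, Q (P x) = P x)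
    (hP : ∀ x, p (P x) ≤ lam * p x) (hQ : ∀ x, r (Q x) ≤ lam * r x)
    (Z : Submodule ℝ V) (hZ : ∀ z ∈ Z, Q z = 0) (g : B →ₗ[ℝ] V) (hg : Function.Injective g)
    (hPg : ∀ y, P (g y) = g y) [FiniteDimensional ℝ Z] [FiniteDimensional ℝ B]
    (hk : finrank ℝ Z + finrank ℝ B = k) :
    Iso (4 * b ^ 3 * (1 + 2 * lam) ^ 6) (ds (r.comp Z.subtype) (r.comp g))
      (ds (p.comp ((LinearMap.id - P) ∘ₗ Z.subtype)) (p.comp g)) := by
  have hPP : ∀ x, P (P x) = P x := fun x => by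
    rw [← hQP x, hPQ]
  have hQg : ∀ y, Q (g y) = g y := fun y => by
    rw [← hPg y, hQP]
  have hL : 0 < 1 + 2 * lam := by linarith
  have hX : finrank ℝ (Z × B) = k := by rw [Module.finrank_prod]; exact hk
  -- values of the projections on the tilted spaces
  have hPu : ∀ (t : ℝ) (x : Z × B), P (um P Z g t x) = (1 - t) • P (x.1 : V) + g x.2 := by
    intro t x
    simp only [um_apply, map_add, map_sub, map_smul, hPP, hPg]
    module
  have hQu : ∀ (t : ℝ) (x : Z × B), Q (um P Z g t x) = -(t • P (x.1 : V)) + g x.2 := by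
    intro t x
    simp only [um_apply, map_add, map_sub, map_smul, hQP, hQg, hZ _ x.1.2]
    module
  have hinj : ∀ t : ℝ, Function.Injective (um P Z g t) := by
    intro t
    rw [← LinearMap.ker_eq_bot, LinearMap.ker_eq_bot']
    intro x hx
    have h1 := hQu t x
    rw [hx, map_zero] at h1
    have h2 : (x.1 : V) = 0 := by
      have : um P Z g t x = (x.1 : V) + (-(t • P (x.1 : V)) + g x.2) := by
        simp only [um_apply]; module
      rw [hx, ← h1, add_zero] at this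
      exact this.symm
    have h3 : g x.2 = 0 := by
      rw [h2, map_zero, smul_zero, neg_zero, zero_add] at h1
      exact h1.symm
    have h4 : x.2 = 0 := by
      apply hg; rw [h3, map_zero]
    exact Prod.ext (Subtype.ext h2) h4
  have hHyp : ∀ t : ℝ, Iso b (p.comp (um P Z g t)) (r.comp (um P Z g t)) := fun t =>
    H.inj _ (hinj t) hX
  -- the two-sided estimates
  have pa : ∀ (t : ℝ) (x : Z × B), p ((x.1 : V) - P x.1) ≤ (1 + lam) * p (um P Z g t x) := by
    intro t x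
    have e : (x.1 : V) - P x.1 = um P Z g t x - P (um P Z g t x) := by
      rw [hPu]; simp only [um_apply]; module
    rw [e]
    have h1 := map_sub_le_add p (um P Z g t x) (P (um P Z g t x))
    have h2 := hP (um P Z g t x)
    linarith
  have pc : ∀ (t : ℝ) (x : Z × B), p ((1 - t) • P (x.1 : V) + g x.2) ≤
      lam * p (um P Z g t x) := by
    intro t x
    rw [← hPu]; exact hP _
  have pu : ∀ (t : ℝ) (x : Z × B), p (um P Z g t x) ≤ p ((x.1 : V) - P x.1) +
      p ((1 - t) • P (x.1 : V) + g x.2) := by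
    intro t x
    have e : um P Z g t x = ((x.1 : V) - P x.1) + ((1 - t) • P (x.1 : V) + g x.2) := by
      simp only [um_apply]; module
    rw [e]; exact map_add_le_add p _ _
  have ra : ∀ (t : ℝ) (x : Z × B), r (x.1 : V) ≤ (1 + lam) * r (um P Z g t x) := by
    intro t x
    have e : (x.1 : V) = um P Z g t x - Q (um P Z g t x) := by
      rw [hQu]; simp only [um_apply]; module
    have h1 := map_sub_le_add r (um P Z g t x) (Q (um P Z g t x))
    have h2 := hQ (um P Z g t x)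
    rw [← e] at h1
    linarith
  have rc : ∀ (t : ℝ) (x : Z × B), r (-(t • P (x.1 : V)) + g x.2) ≤
      lam * r (um P Z g t x) := by
    intro t x
    rw [← hQu]; exact hQ _
  have ru : ∀ (t : ℝ) (x : Z × B), r (um P Z g t x) ≤ r (x.1 : V) +
      r (-(t • P (x.1 : V)) + g x.2) := by
    intro t x
    have e : um P Z g t x = (x.1 : V) + (-(t • P (x.1 : V)) + g x.2) := by
      simp only [um_apply]; module
    rw [e]; exact map_add_le_add r _ _
  -- N0 -> N1
  have s01 : Iso (1 + 2 * lam) (ds (r.comp Z.subtype) (r.comp g)) (r.comp (um P Z g 0)) := by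
    have := Iso.of_bounds (p := ds (r.comp Z.subtype) (r.comp g)) (r := r.comp (um P Z g 0))
      (LinearEquiv.refl ℝ (Z × B)) (A := 1 + 2 * lam) (B := 1) hL ?_ ?_
    · simpa using this
    · intro x
      have h1 := ra 0 x
      have h2 := rc 0 x
      simp only [zero_smul, neg_zero, zero_add] at h2
      show r (x.1 : V) + r (g x.2) ≤ (1 + 2 * lam) * r (um P Z g 0 x)
      linarith
    · intro x
      have h1 := ru 0 x
      simp only [zero_smul, neg_zero, zero_add] at h1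
      show r (um P Z g 0 x) ≤ 1 * (r (x.1 : V) + r (g x.2))
      linarith
  -- N2 -> N3
  have s23 : Iso ((2 * (1 + 2 * lam)) * (1 + 2 * lam)) (p.comp (um P Z g 0))
      (p.comp (um P Z g (1 / 2))) := by
    refine Iso.of_bounds (sc Z B (1 / 2) (by norm_num)) (by positivity) ?_ ?_
    · intro x
      have h1 := pu 0 x
      have h2 := pa (1 / 2) (sc Z B (1 / 2) (by norm_num) x)
      have h3 := pc (1 / 2) (sc Z B (1 / 2) (by norm_num) x)
      simp only [sc_apply, map_smul] at h2 h3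
      have e : (1 - 1 / 2 : ℝ) • P (x.1 : V) + (1 / 2 : ℝ) • g x.2 =
          (1 / 2 : ℝ) • ((1 - 0 : ℝ) • P (x.1 : V) + g x.2) := by module
      rw [e, map_smul_eq_mul, Real.norm_eq_abs, abs_of_pos (by norm_num)] at h3
      show p (um P Z g 0 x) ≤ 2 * (1 + 2 * lam) * p (um P Z g (1 / 2) (sc Z B (1 / 2) _ x))
      simp only [sc_apply]
      exact est1 (by linarith) (apply_nonneg p _) h1 h2 h3
    · intro x
      have h1 := pu (1 / 2) (sc Z B (1 / 2) (by norm_num) x)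
      have h2 := pa 0 x
      have h3 := pc 0 x
      simp only [sc_apply, map_smul] at h1
      have e : (1 - 1 / 2 : ℝ) • P (x.1 : V) + (1 / 2 : ℝ) • g x.2 =
          (1 / 2 : ℝ) • ((1 - 0 : ℝ) • P (x.1 : V) + g x.2) := by module
      rw [e, map_smul_eq_mul, Real.norm_eq_abs, abs_of_pos (by norm_num)] at h1
      show p (um P Z g (1 / 2) (sc Z B (1 / 2) _ x)) ≤ (1 + 2 * lam) * p (um P Z g 0 x)
      simp only [sc_apply]
      exact est2 (by linarith) (apply_nonneg p _) h1 h2 h3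
  -- N4 -> N5
  have s45 : Iso ((1 + 2 * lam) * (2 * (1 + 2 * lam))) (r.comp (um P Z g (1 / 2)))
      (r.comp (um P Z g 1)) := by
    refine Iso.of_bounds (sc Z B 2 (by norm_num)) (by positivity) ?_ ?_
    · intro x
      have h1 := ru (1 / 2) x
      have h2 := ra 1 (sc Z B 2 (by norm_num) x)
      have h3 := rc 1 (sc Z B 2 (by norm_num) x)
      simp only [sc_apply, map_smul] at h2 h3
      have e : -((1 : ℝ) • P (x.1 : V)) + (2 : ℝ) • g x.2 =
          (2 : ℝ) • (-((1 / 2 : ℝ) • P (x.1 : V)) + g x.2) := by module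
      rw [e, map_smul_eq_mul, Real.norm_eq_abs, abs_of_pos (by norm_num)] at h3
      show r (um P Z g (1 / 2) x) ≤ (1 + 2 * lam) * r (um P Z g 1 (sc Z B 2 _ x))
      simp only [sc_apply]
      exact est3 (by linarith) (apply_nonneg r _) h1 h2 h3
    · intro x
      have h1 := ru 1 (sc Z B 2 (by norm_num) x)
      have h2 := ra (1 / 2) x
      have h3 := rc (1 / 2) x
      simp only [sc_apply, map_smul] at h1
      have e : -((1 : ℝ) • P (x.1 : V)) + (2 : ℝ) • g x.2 =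
          (2 : ℝ) • (-((1 / 2 : ℝ) • P (x.1 : V)) + g x.2) := by module
      rw [e, map_smul_eq_mul, Real.norm_eq_abs, abs_of_pos (by norm_num)] at h1
      show r (um P Z g 1 (sc Z B 2 _ x)) ≤ 2 * (1 + 2 * lam) * r (um P Z g (1 / 2) x)
      simp only [sc_apply]
      exact est4 (by linarith) (apply_nonneg r _) h1 h2 h3
  -- N6 -> N7
  have s67 : Iso (1 + 2 * lam) (p.comp (um P Z g 1))
      (ds (p.comp ((LinearMap.id - P) ∘ₗ Z.subtype)) (p.comp g)) := by
    have := Iso.of_bounds (p := p.comp (um P Z g 1))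
      (r := ds (p.comp ((LinearMap.id - P) ∘ₗ Z.subtype)) (p.comp g))
      (LinearEquiv.refl ℝ (Z × B)) (A := 1) (B := 1 + 2 * lam) one_pos ?_ ?_
    · simpa using this
    · intro x
      have h1 := pu 1 x
      simp only [sub_self, zero_smul, zero_add] at h1
      show p (um P Z g 1 x) ≤ 1 * (p ((x.1 : V) - P x.1) + p (g x.2))
      linarith
    · intro x
      have h1 := pa 1 x
      have h2 := pc 1 x
      simp only [sub_self, zero_smul, zero_add] at h2
      show p ((x.1 : V) - P x.1) + p (g x.2) ≤ (1 + 2 * lam) * p (um P Z g 1 x)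
      linarith
  have hb0 : 0 < b := by linarith
  have t1 := s01.trans ((hHyp 0).symm hb0) hb0.le
  have t2 := t1.trans s23 (by positivity)
  have t3 := t2.trans (hHyp (1 / 2)) hb0.le
  have t4 := t3.trans s45 (by positivity)
  have t5 := t4.trans ((hHyp 1).symm hb0) hb0.le
  have t6 := t5.trans s67 hL.le
  refine t6.mono (le_of_eq ?_)
  ring

end tilt

end Pool.Agent.MP3e8c7a
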