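import Pool.Agent.Work.MP_3e8c7a.Hyper

/-!
# MP_3e8c7a_an: cubes and cubes times a body, at the level of norms
-/

namespace Pool.Agent.MP3e8c7a

open Module

section step

variable {V : Type*} [AddCommGroup V] [Module ℝ V]

/-- Add one block to a cube. -/
lemma cube_step [FiniteDimensional ℝ V] {ι : Type*} [Fintype ι] {b M c : ℝ} (hb : 1 ≤ b)
    (hM : 1 ≤ M) (hc : 1 ≤ c) {s : ℕ} {p r : Seminorm ℝ V} (H : Hyp b s p r)
    (i : (ι → ℝ) →ₗ[ℝ] V) (φ : V →ₗ[ℝ] (ι → ℝ)) (hφ : ∀ a, φ (i a) = a)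
    (h1 : ∀ a, p (i a) ≤ ‖a‖) (h2 : ∀ x, ‖φ x‖ ≤ M * p x)
    (hs : finrank ℝ V = Fintype.card ι + s) (hI : Iso c (p.comp i) (r.comp i)) :
    ∃ ψ : V →ₗ[ℝ] (ι → ℝ), (∀ a, ψ (i a) = a) ∧ (∀ x, r (i (ψ x)) ≤ (c * M) * r x) ∧
      (∀ x, p (i (φ x)) ≤ (c * M) * p x) ∧ finrank ℝ (LinearMap.ker ψ) = s ∧
      Iso (c * M) (r.comp i) (normSeminorm ℝ (ι → ℝ)) ∧
      Iso (stc b (c * M) c) p r := by
  have hi : Function.Injective i := Function.LeftInverse.injective hφ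
  have hcM : 1 ≤ c * M := by nlinarith
  have n1 : Iso M (p.comp i) (normSeminorm ℝ (ι → ℝ)) := by
    refine ⟨LinearEquiv.refl ℝ _, fun a => ⟨h1 a, ?_⟩⟩
    have := h2 (i a)
    rw [hφ] at this
    exact this
  have n2 : Iso (c * M) (r.comp i) (normSeminorm ℝ (ι → ℝ)) :=
    (hI.symm (by linarith)).trans n1 (by linarith)
  obtain ⟨ψ, hψ1, hψ2⟩ := exists_proj (by linarith) r i hi n2
  have hP : ∀ x, p (i (φ x)) ≤ (c * M) * p x := by
    intro x
    have := (h1 (φ x)).trans (h2 x)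
    have h0 := mul_nonneg (by linarith : (0 : ℝ) ≤ M) (apply_nonneg p x)
    nlinarith
  have hk : finrank ℝ (LinearMap.ker ψ) = s := by
    have h3 := LinearMap.finrank_range_add_finrank_ker ψ
    have h4 : LinearMap.range ψ = ⊤ :=
      LinearMap.range_eq_top.2 (Function.RightInverse.surjective hψ1)
    rw [h4, finrank_top, Module.finrank_fintype_fun_eq_card, hs] at h3
    omega
  exact ⟨ψ, hψ1, hψ2, hP, hk, n2, step hb hcM hc H i φ ψ hφ hψ1 hP hψ2 hk hI⟩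

end step

section fin

/-- Extension by zero. -/
noncomputable def ext0 (m n : ℕ) : (Fin m → ℝ) →ₗ[ℝ] (Fin n → ℝ) where
  toFun a := fun l => if h : (l : ℕ) < m then a ⟨l, h⟩ else 0
  map_add' a b := by
    funext l; simp only [Pi.add_apply]; split_ifs <;> simp
  map_smul' c a := by
    funext l; simp only [Pi.smul_apply, RingHom.id_apply]; split_ifs <;> simp

/-- Restriction to the first coordinates. -/
def res (m n : ℕ) (h : m ≤ n) : (Fin n → ℝ) →ₗ[ℝ] (Fin m → ℝ) where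
  toFun x := fun l => x (Fin.castLE h l)
  map_add' _ _ := rfl
  map_smul' _ _ := rfl

lemma res_ext0 (m n : ℕ) (h : m ≤ n) (a : Fin m → ℝ) : res m n h (ext0 m n a) = a := by
  funext l
  show (if h' : ((Fin.castLE h l : Fin n) : ℕ) < m then a ⟨(Fin.castLE h l : Fin n), h'⟩ else 0)
    = a l
  rw [dif_pos (by simp)]
  rfl

lemma norm_ext0_le (m n : ℕ) (a : Fin m → ℝ) : ‖ext0 m n a‖ ≤ ‖a‖ := by
  rw [pi_norm_le_iff_of_nonneg (norm_nonneg _)]
  intro l
  show ‖(if h : (l : ℕ) < m then a ⟨l, h⟩ else 0)‖ ≤ ‖a‖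
  split_ifs with h
  · exact norm_le_pi_norm a _
  · simp

lemma norm_res_le (m n : ℕ) (h : m ≤ n) (x : Fin n → ℝ) : ‖res m n h x‖ ≤ ‖x‖ := by
  rw [pi_norm_le_iff_of_nonneg (norm_nonneg _)]
  intro l
  exact norm_le_pi_norm x _

end fin

/-- **Cubes.** The number of blocks is `j`, of sizes `k` and `k + 1`. -/
theorem cube_iso (b M : ℝ) (hb : 1 ≤ b) (hM : 1 ≤ M) (j : ℕ) : ∃ c : ℝ, 1 ≤ c ∧
    ∀ (k N : ℕ) (V : Type) [AddCommGroup V] [Module ℝ V] (p r : Seminorm ℝ V),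
      j * k ≤ N → N ≤ j * (k + 1) → Hyp b (k + 1) p r → Hyp b k p r →
      Iso M p (normSeminorm ℝ (Fin N → ℝ)) → Iso c p r := by
  induction j with
  | zero =>
    refine ⟨1, le_refl _, ?_⟩
    intro k N V _ _ p r _ hN _ _ hI
    obtain ⟨T, hT⟩ := hI
    have hN0 : N = 0 := by omega
    subst hN0
    have hV : ∀ x : V, x = 0 := fun x => by
      apply T.injective
      exact Subsingleton.elim _ _
    refine ⟨LinearEquiv.refl ℝ V, fun x => ?_⟩
    rw [hV x]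
    simp
  | succ j ih =>
    obtain ⟨c, hc, hI⟩ := ih
    have hcM : 1 ≤ c * M := by nlinarith
    refine ⟨stc b (c * M) c, one_le_stc hb hcM hc, ?_⟩
    intro k N V _ _ p r hN1 hN2 H1 H0 hV
    obtain ⟨s, N', hs, hNs, h1, h2⟩ : ∃ s N' : ℕ, (s = k ∨ s = k + 1) ∧ N = N' + s ∧
        j * k ≤ N' ∧ N' ≤ j * (k + 1) := by
      have e1 : (j + 1) * k = j * k + k := by ring
      have e2 : (j + 1) * (k + 1) = j * (k + 1) + (k + 1) := by ring
      have e3 : j * k ≤ j * (k + 1) := Nat.mul_le_mul_left j (Nat.le_succ k)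
      by_cases h : N ≤ j * (k + 1) + k
      · exact ⟨k, N - k, Or.inl rfl, by omega, by omega, by omega⟩
      · exact ⟨k + 1, N - (k + 1), Or.inr rfl, by omega, by omega, by omega⟩
    obtain ⟨T, hT⟩ := hV
    have : FiniteDimensional ℝ V := T.symm.finiteDimensional
    have hle : N' ≤ N := by omega
    let i : (Fin N' → ℝ) →ₗ[ℝ] V := (T.symm : (Fin N → ℝ) →ₗ[ℝ] V) ∘ₗ ext0 N' N
    let φ : V →ₗ[ℝ] (Fin N' → ℝ) := res N' N hle ∘ₗ (T : V →ₗ[ℝ] (Fin N → ℝ))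
    have hφ : ∀ a, φ (i a) = a := fun a => by
      show res N' N hle (T (T.symm (ext0 N' N a))) = a
      rw [LinearEquiv.apply_symm_apply, res_ext0]
    have q1 : ∀ a, p (i a) ≤ ‖a‖ := fun a => by
      have := (hT (T.symm (ext0 N' N a))).1
      rw [LinearEquiv.apply_symm_apply] at this
      exact this.trans (norm_ext0_le N' N a)
    have q2 : ∀ x, ‖φ x‖ ≤ M * p x := fun x =>
      (norm_res_le N' N hle (T x)).trans (hT x).2
    have n1 : Iso M (p.comp i) (normSeminorm ℝ (Fin N' → ℝ)) := by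
      refine ⟨LinearEquiv.refl ℝ _, fun a => ⟨q1 a, ?_⟩⟩
      have := q2 (i a)
      rw [hφ] at this
      exact this
    have hi : Function.Injective i := Function.LeftInverse.injective hφ
    have hA := hI k N' (Fin N' → ℝ) (p.comp i) (r.comp i) h1 h2 (H1.comp i hi) (H0.comp i hi) n1
    have hfr : finrank ℝ V = Fintype.card (Fin N') + s := by
      rw [LinearEquiv.finrank_eq T, Module.finrank_fintype_fun_eq_card, Fintype.card_fin,
        Fintype.card_fin, hNs]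
    have Hs : Hyp b s p r := by
      rcases hs with rfl | rfl
      · exact H0
      · exact H1
    obtain ⟨ψ, _, _, _, _, _, h⟩ := cube_step hb hM hc Hs i φ hφ q1 q2 hfr hA
    exact h

/-- **Cube times a body**, the body has dimension `k + 1`. -/
theorem cubeTimes_iso (b M : ℝ) (hb : 1 ≤ b) (hM : 1 ≤ M) (j : ℕ) : ∃ c : ℝ, 1 ≤ c ∧
    ∀ (k m : ℕ) (V : Type) [AddCommGroup V] [Module ℝ V] [FiniteDimensional ℝ V]
      (p r : Seminorm ℝ V), Def p → j * k ≤ m → m ≤ j * (k + 1) → finrank ℝ V = m + (k + 1) →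
      Hyp b (k + 1) p r → ∀ (i : (Fin m → ℝ) →ₗ[ℝ] V) (φ : V →ₗ[ℝ] (Fin m → ℝ)),
      (∀ a, φ (i a) = a) → (∀ a, p (i a) ≤ ‖a‖) → (∀ x, ‖φ x‖ ≤ M * p x) → Iso c p r := by
  obtain ⟨c, hc, hI⟩ := cube_iso (25 * b) M (by linarith) hM j
  have hcM : 1 ≤ c * M := by nlinarith
  refine ⟨stc (25 * b) (c * M) c, one_le_stc (by linarith) hcM hc, ?_⟩
  intro k m V _ _ _ p r hp h1 h2 hV H i φ hφ q1 q2
  have H0 : Hyp (25 * b) k p r := H.pred hb hp (by omega)
  have H1 : Hyp (25 * b) (k + 1) p r := H.mono (by linarith)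
  have n1 : Iso M (p.comp i) (normSeminorm ℝ (Fin m → ℝ)) := by
    refine ⟨LinearEquiv.refl ℝ _, fun a => ⟨q1 a, ?_⟩⟩
    have := q2 (i a)
    rw [hφ] at this
    exact this
  have hi : Function.Injective i := Function.LeftInverse.injective hφ
  have hA := hI k m (Fin m → ℝ) (p.comp i) (r.comp i) h1 h2 (H1.comp i hi) (H0.comp i hi) n1
  obtain ⟨ψ, _, _, _, _, _, h⟩ := cube_step (by linarith) hM hc H1 i φ hφ q1 q2
    (by rw [hV, Fintype.card_fin]) hA
  exact h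

end Pool.Agent.MP3e8c7a
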