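import Mathlib

/-!
# MP_3e8c7a_an: definitions

Origin-symmetric convex bodies, the Banach–Mazur distance, sections.
-/

namespace Pool.Agent.MP3e8c7a

open scoped Pointwise

/-- Origin-symmetric convex body in `ℝ^n`: convex, compact, with nonempty interior, `K = -K`. -/
def IsBody {n : ℕ} (K : Set (Fin n → ℝ)) : Prop :=
  Convex ℝ K ∧ IsCompact K ∧ (interior K).Nonempty ∧ ∀ x ∈ K, -x ∈ K

/-- The Banach–Mazur distance `inf {t ≥ 1 : ∃ T ∈ GL(V), L ⊆ T K ⊆ t L}` of two subsets of a real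
vector space, as an extended real number. -/
noncomputable def dBM {V : Type} [AddCommGroup V] [Module ℝ V] (K L : Set V) : ENNReal :=
  sInf {s : ENNReal | ∃ t : ℝ, 1 ≤ t ∧ s = ENNReal.ofReal t ∧
    ∃ T : V ≃ₗ[ℝ] V, L ⊆ T '' K ∧ T '' K ⊆ t • L}

/-- The section `K ∩ E` as a subset of `E`. -/
def sec {n : ℕ} (K : Set (Fin n → ℝ)) (E : Submodule ℝ (Fin n → ℝ)) : Set E :=
  {x : E | (x : Fin n → ℝ) ∈ K}

/-- All sections of `K` and `L` by subspaces of dimension `k` have distance at most `b`. -/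
def SectionsClose (k : ℕ) (b : ℝ) {n : ℕ} (K L : Set (Fin n → ℝ)) : Prop :=
  ∀ E : Submodule ℝ (Fin n → ℝ), Module.finrank ℝ E = k →
    dBM (sec K E) (sec L E) ≤ ENNReal.ofReal b

/-- `K` is a linear image of `[-1,1]^(n-k) × W` for a symmetric convex body `W` of `ℝ^k`, up to
the factor `M`. -/
def CubeTimes (M : ℝ) (k : ℕ) {n : ℕ} (K : Set (Fin n → ℝ)) : Prop :=
  ∃ (A : (Fin n → ℝ) ≃ₗ[ℝ] (Fin (n - k) → ℝ) × (Fin k → ℝ)) (W : Set (Fin k → ℝ)), IsBody W ∧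
    {x | (∀ i, |(A x).1 i| ≤ 1) ∧ (A x).2 ∈ W} ⊆ K ∧
    K ⊆ M • {x | (∀ i, |(A x).1 i| ≤ 1) ∧ (A x).2 ∈ W}

/-- `K` has a section of dimension `m` that is within `M` of a cube. -/
def HasCubeSection (M : ℝ) (m : ℕ) {n : ℕ} (K : Set (Fin n → ℝ)) : Prop :=
  ∃ i : (Fin m → ℝ) →ₗ[ℝ] (Fin n → ℝ), Function.Injective i ∧
    (∀ x, (∀ l, |x l| ≤ 1) → i x ∈ K) ∧ ∀ x, i x ∈ K → ∀ l, |x l| ≤ M

/-- `K` is a linear image of the cube `[-1,1]^n`, up to the factor `M`. -/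
def CubeLike (M : ℝ) {n : ℕ} (K : Set (Fin n → ℝ)) : Prop :=
  ∃ A : (Fin n → ℝ) ≃ₗ[ℝ] (Fin n → ℝ), {x | ∀ i, |A x i| ≤ 1} ⊆ K ∧
    K ⊆ M • {x | ∀ i, |A x i| ≤ 1}

/-- `E` is the range of a linear projection `P` with `P K ⊆ lam K`. -/
def Complemented (lam : ℝ) {n : ℕ} (K : Set (Fin n → ℝ)) (E : Submodule ℝ (Fin n → ℝ)) : Prop :=
  ∃ P : (Fin n → ℝ) →ₗ[ℝ] (Fin n → ℝ), (∀ x, P x ∈ E) ∧ (∀ x ∈ E, P x = x) ∧ P '' K ⊆ lam • K

end Pool.Agent.MP3e8c7a
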