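import Pool.Agent.Work.MP_3e8c7a.Glue

/-!
# MP_3e8c7a_an: the theorem on cubes times a body
-/

namespace Pool.Agent.MP3e8c7a

open Module

/-- `k = ⌈n/q⌉` in the form used by the blocks. -/
lemma ceil_blocks {q n : ℕ} (hq : 2 ≤ q) (hn : 0 < n) : ∃ j k' : ℕ, q = j + 1 ∧
    ⌈(1 / q : ℝ) * n⌉₊ = k' + 1 ∧ k' + 1 ≤ n ∧ j * k' ≤ n - (k' + 1) ∧
    n - (k' + 1) ≤ j * (k' + 1) := by
  have hq0 : (0 : ℝ) < q := by exact_mod_cast (by omega : 0 < q)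
  have hpos : (0 : ℝ) < (1 / q : ℝ) * n := by
    have : (0 : ℝ) < n := by exact_mod_cast hn
    positivity
  have hk : 0 < ⌈(1 / q : ℝ) * n⌉₊ := Nat.ceil_pos.2 hpos
  obtain ⟨j, rfl⟩ : ∃ j, q = j + 1 := ⟨q - 1, by omega⟩
  obtain ⟨k', hk'⟩ : ∃ k', ⌈(1 / (j + 1 : ℕ) : ℝ) * n⌉₊ = k' + 1 :=
    ⟨⌈(1 / (j + 1 : ℕ) : ℝ) * n⌉₊ - 1, by omega⟩
  have h1 : (1 / (j + 1 : ℕ) : ℝ) * n ≤ (k' + 1 : ℕ) := by
    rw [← hk']; exact Nat.le_ceil _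
  have h2 : (k' : ℝ) < (1 / (j + 1 : ℕ) : ℝ) * n := by
    have h3 : (k' : ℕ) < ⌈(1 / (j + 1 : ℕ) : ℝ) * n⌉₊ := by omega
    exact Nat.lt_ceil.1 h3
  have h3 : n ≤ (j + 1) * (k' + 1) := by
    have : (n : ℝ) ≤ ((j + 1) * (k' + 1) : ℕ) := by
      rw [one_div, inv_mul_le_iff₀ hq0] at h1
      push_cast at h1 ⊢
      linarith
    exact_mod_cast this
  have h4 : (j + 1) * k' < n := by
    have : (((j + 1) * k' : ℕ) : ℝ) < n := by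
      rw [one_div, lt_inv_mul_iff₀ hq0] at h2
      push_cast at h2 ⊢
      linarith
    exact_mod_cast this
  have e1 : (j + 1) * (k' + 1) = j * (k' + 1) + (k' + 1) := by ring
  have e2 : (j + 1) * k' = j * k' + k' := by ring
  refine ⟨j, k', rfl, hk', by omega, by omega, by omega⟩

theorem cubeTimes_dist (q : ℕ) (hq : 2 ≤ q) (b M : ℝ) (hM : 1 ≤ M) : ∃ C : ℝ, 1 ≤ C ∧
    ∀ n : ℕ, 0 < n → ∀ K L : Set (Fin n → ℝ), IsBody K → IsBody L →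
      SectionsClose ⌈(1 / q : ℝ) * n⌉₊ b K L →
      (CubeTimes M ⌈(1 / q : ℝ) * n⌉₊ K ∨ CubeTimes M ⌈(1 / q : ℝ) * n⌉₊ L) →
      dBM K L ≤ ENNReal.ofReal C := by
  have hb : 1 ≤ |b| + 1 := by linarith [abs_nonneg b]
  obtain ⟨c, hc, hI⟩ := cubeTimes_iso (|b| + 1) M hb hM (q - 1)
  refine ⟨c, hc, ?_⟩
  intro n hn K L hK hL hS hcube
  obtain ⟨j, k', hj, hk', hkn, h1, h2⟩ := ceil_blocks hq hn
  rw [hk'] at hS hcube
  have hj' : q - 1 = j := by omega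
  rw [hj'] at hI
  obtain ⟨p, hp, hKp⟩ := hK.exists_seminorm
  obtain ⟨r, hr, hLr⟩ := hL.exists_seminorm
  have H : Hyp (|b| + 1) (k' + 1) p r := hS.hyp hp hr hKp hLr
  have hfr : finrank ℝ (Fin n → ℝ) = (n - (k' + 1)) + (k' + 1) := by
    rw [Module.finrank_fintype_fun_eq_card, Fintype.card_fin]; omega
  rcases hcube with hcube | hcube
  · obtain ⟨i, φ, hφ, q1, q2⟩ := hcube.data hM hp hKp
    exact (hI k' _ (Fin n → ℝ) p r hp h1 h2 hfr H i φ hφ q1 q2).dBM_le hc hKp hLr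
  · obtain ⟨i, φ, hφ, q1, q2⟩ := hcube.data hM hr hLr
    have h3 := hI k' _ (Fin n → ℝ) r p hr h1 h2 hfr (H.symm (by linarith)) i φ hφ q1 q2
    exact (h3.symm (by linarith)).dBM_le hc hKp hLr

end Pool.Agent.MP3e8c7a
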