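import Pool.Agent.Work.MP_3e8c7a.Glue

/-!
# MP_3e8c7a_an: common flags of complemented subspaces
-/

namespace Pool.Agent.MP3e8c7a

open Module
open scoped Pointwise

/-- Flags at the level of norms. -/
theorem flag_iso (b lam : ℝ) (hb : 1 ≤ b) (hlam : 1 ≤ lam) (j : ℕ) : ∃ c : ℝ, 1 ≤ c ∧
    ∀ (k : ℕ) (V : Type) [AddCommGroup V] [Module ℝ V] [FiniteDimensional ℝ V]
      (p r : Seminorm ℝ V), Hyp b (k + 1) p r → Hyp b k p r → ∀ E : ℕ → Submodule ℝ V,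
      (∀ i < j, E i ≤ E (i + 1) ∧ finrank ℝ (E i) + k ≤ finrank ℝ (E (i + 1)) ∧
        finrank ℝ (E (i + 1)) ≤ finrank ℝ (E i) + (k + 1)) →
      (∀ i < j, ∃ P : V →ₗ[ℝ] V, (∀ x, P x ∈ E i) ∧ (∀ x ∈ E i, P x = x) ∧
        ∀ x, p (P x) ≤ lam * p x) →
      (∀ i < j, ∃ Q : V →ₗ[ℝ] V, (∀ x, Q x ∈ E i) ∧ (∀ x ∈ E i, Q x = x) ∧
        ∀ x, r (Q x) ≤ lam * r x) →
      Iso b (p.comp (E 0).subtype) (r.comp (E 0).subtype) →
      Iso c (p.comp (E j).subtype) (r.comp (E j).subtype) := by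
  induction j with
  | zero => exact ⟨b, hb, fun k V _ _ _ p r _ _ E _ _ _ h => h⟩
  | succ j ih =>
    obtain ⟨c, hc, hI⟩ := ih
    refine ⟨stc b lam c, one_le_stc hb hlam hc, ?_⟩
    intro k V _ _ _ p r H1 H0 E hE hP hQ h0
    have hj := hI k V p r H1 H0 E (fun i hi => hE i (by omega)) (fun i hi => hP i (by omega))
      (fun i hi => hQ i (by omega)) h0
    obtain ⟨hle, hd1, hd2⟩ := hE j (by omega)
    obtain ⟨P, hP1, hP2, hP3⟩ := hP j (by omega)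
    obtain ⟨Q, hQ1, hQ2, hQ3⟩ := hQ j (by omega)
    let i : E j →ₗ[ℝ] E (j + 1) := Submodule.inclusion hle
    let φ : E (j + 1) →ₗ[ℝ] E j := (P.codRestrict (E j) hP1) ∘ₗ (E (j + 1)).subtype
    let ψ : E (j + 1) →ₗ[ℝ] E j := (Q.codRestrict (E j) hQ1) ∘ₗ (E (j + 1)).subtype
    have hφ : ∀ a, φ (i a) = a := fun a => Subtype.ext (hP2 _ a.2)
    have hψ : ∀ a, ψ (i a) = a := fun a => Subtype.ext (hQ2 _ a.2)
    have hr : LinearMap.range ψ = ⊤ :=
      LinearMap.range_eq_top.2 (Function.RightInverse.surjective hψ)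
    have h3 := LinearMap.finrank_range_add_finrank_ker ψ
    rw [hr, finrank_top] at h3
    have hs : finrank ℝ (LinearMap.ker ψ) = k ∨ finrank ℝ (LinearMap.ker ψ) = k + 1 := by omega
    have Hs : Hyp b (finrank ℝ (LinearMap.ker ψ)) (p.comp (E (j + 1)).subtype)
        (r.comp (E (j + 1)).subtype) := by
      rcases hs with hs | hs
      · rw [hs]; exact H0.comp _ Subtype.val_injective
      · rw [hs]; exact H1.comp _ Subtype.val_injective
    exact step hb hlam hc Hs i φ ψ hφ hψ (fun x => hP3 (x : V)) (fun x => hQ3 (x : V)) rfl hj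

lemma Complemented.data {lam : ℝ} (hlam : 1 ≤ lam) {n : ℕ} {K : Set (Fin n → ℝ)}
    {E : Submodule ℝ (Fin n → ℝ)} {p : Seminorm ℝ (Fin n → ℝ)} (hp : Def p)
    (hK : ∀ x, x ∈ K ↔ p x ≤ 1) (h : Complemented lam K E) :
    ∃ P : (Fin n → ℝ) →ₗ[ℝ] (Fin n → ℝ), (∀ x, P x ∈ E) ∧ (∀ x ∈ E, P x = x) ∧
      ∀ x, p (P x) ≤ lam * p x := by
  obtain ⟨P, h1, h2, h3⟩ := h
  refine ⟨P, h1, h2, fun x => ?_⟩
  rcases (apply_nonneg p x).lt_or_eq with h0 | h0
  · have h4 : (p x)⁻¹ • x ∈ K := by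
      rw [hK, map_smul_eq_mul, Real.norm_eq_abs, abs_of_pos (inv_pos.2 h0),
        inv_mul_cancel₀ h0.ne']
    have h5 := h3 ⟨_, h4, rfl⟩
    rw [Set.mem_smul_set_iff_inv_smul_mem₀ (by linarith), hK, map_smul_eq_mul, map_smul,
      map_smul_eq_mul, Real.norm_eq_abs, Real.norm_eq_abs, abs_of_pos (inv_pos.2 h0),
      abs_of_pos (by positivity), inv_mul_le_iff₀ (by linarith), inv_mul_le_iff₀ h0,
      mul_one] at h5
    linarith
  · have h4 : x = 0 := hp _ h0.symm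
    rw [h4, map_zero, map_zero, mul_zero]

theorem flags_dist (b lam : ℝ) (hlam : 1 ≤ lam) (j : ℕ) : ∃ C : ℝ, 1 ≤ C ∧
    ∀ n k : ℕ, 1 ≤ k → k ≤ n → ∀ K L : Set (Fin n → ℝ), IsBody K → IsBody L →
      SectionsClose k b K L → ∀ E : ℕ → Submodule ℝ (Fin n → ℝ), E j = ⊤ →
      (∀ i < j, E i ≤ E (i + 1) ∧ finrank ℝ (E i) + (k - 1) ≤ finrank ℝ (E (i + 1)) ∧
        finrank ℝ (E (i + 1)) ≤ finrank ℝ (E i) + k) →
      (∀ i < j, Complemented lam K (E i) ∧ Complemented lam L (E i)) →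
      dBM (sec K (E 0)) (sec L (E 0)) ≤ ENNReal.ofReal b →
      dBM K L ≤ ENNReal.ofReal C := by
  have hb : 1 ≤ 25 * (|b| + 1) := by linarith [abs_nonneg b]
  obtain ⟨c, hc, hI⟩ := flag_iso (25 * (|b| + 1)) lam hb hlam j
  refine ⟨c, hc, ?_⟩
  intro n k hk hkn K L hK hL hS E hEj hE hcomp h0
  obtain ⟨k', rfl⟩ : ∃ k', k = k' + 1 := ⟨k - 1, by omega⟩
  obtain ⟨p, hp, hKp⟩ := hK.exists_seminorm
  obtain ⟨r, hr, hLr⟩ := hL.exists_seminorm
  have H : Hyp (|b| + 1) (k' + 1) p r := hS.hyp hp hr hKp hLr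
  have hfr : finrank ℝ (Fin n → ℝ) = n := by
    rw [Module.finrank_fintype_fun_eq_card, Fintype.card_fin]
  have H0 : Hyp (25 * (|b| + 1)) k' p r := H.pred (by linarith [abs_nonneg b]) hp (by omega)
  have H1 : Hyp (25 * (|b| + 1)) (k' + 1) p r := H.mono (by linarith [abs_nonneg b])
  have i0 : Iso (25 * (|b| + 1)) (p.comp (E 0).subtype) (r.comp (E 0).subtype) :=
    (iso_of_dBM_le (p := p.comp (E 0).subtype) (r := r.comp (E 0).subtype) (K := sec K (E 0))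
      (L := sec L (E 0)) (hp.comp _ Subtype.val_injective) (hr.comp _ Subtype.val_injective)
      (fun x => hKp x) (fun x => hLr x) h0).mono (by linarith [abs_nonneg b])
  have h1 := hI k' (Fin n → ℝ) p r H1 H0 E (fun i hi => by simpa using hE i hi)
    (fun i hi => (hcomp i hi).1.data hlam hp hKp) (fun i hi => (hcomp i hi).2.data hlam hr hLr) i0
  rw [hEj] at h1
  obtain ⟨T, hT⟩ := h1
  refine Iso.dBM_le hc hKp hLr ⟨(Submodule.topEquiv.symm.trans T).trans Submodule.topEquiv,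
    fun x => ?_⟩
  exact hT (Submodule.topEquiv.symm x)

end Pool.Agent.MP3e8c7a
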