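import Pool.Agent.Work.MP_3e8c7a.Cube
import Pool.Agent.Work.MP_3e8c7a.Defs

/-!
# MP_3e8c7a_an: from bodies to norms and back
-/

namespace Pool.Agent.MP3e8c7a

open Module
open scoped Pointwise Topology

lemma IsBody.zero_mem_interior {n : ℕ} {K : Set (Fin n → ℝ)} (hK : IsBody K) :
    (0 : Fin n → ℝ) ∈ interior K := by
  obtain ⟨hc, _, ⟨x, hx⟩, hs⟩ := hK
  have h1 : -x ∈ K := hs x (interior_subset hx)
  have h2 := hc.combo_interior_self_mem_interior hx h1 (a := 1 / 2) (b := 1 / 2)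
    (by norm_num) (by norm_num) (by norm_num)
  have e : (1 / 2 : ℝ) • x + (1 / 2 : ℝ) • (-x) = 0 := by
    rw [smul_neg, add_neg_cancel]
  rwa [e] at h2

lemma IsBody.exists_seminorm {n : ℕ} {K : Set (Fin n → ℝ)} (hK : IsBody K) :
    ∃ p : Seminorm ℝ (Fin n → ℝ), Def p ∧ ∀ x, x ∈ K ↔ p x ≤ 1 := by
  have h0 := hK.zero_mem_interior
  obtain ⟨hc, hcomp, _, hs⟩ := hK
  have hnhds : K ∈ 𝓝 (0 : Fin n → ℝ) := mem_interior_iff_mem_nhds.1 h0
  have hz : (0 : Fin n → ℝ) ∈ K := interior_subset h0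
  have hbal : Balanced ℝ K := by
    intro a ha
    rintro _ ⟨x, hx, rfl⟩
    have ha' : |a| ≤ 1 := ha
    obtain ⟨h1, h2⟩ := abs_le.1 ha'
    have h3 := hc hx (hs x hx) (a := (1 + a) / 2) (b := (1 - a) / 2) (by linarith) (by linarith)
      (by ring)
    have e : ((1 + a) / 2) • x + ((1 - a) / 2) • (-x) = a • x := by
      module
    rw [e] at h3
    exact h3
  have habs : Absorbent ℝ K := absorbent_nhds_zero hnhds
  refine ⟨gaugeSeminorm hbal hc habs, fun x hx => ?_, fun x => ?_⟩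
  · have hx' : gauge K x = 0 := hx
    exact (gauge_eq_zero habs (NormedSpace.isVonNBounded_of_isBounded ℝ
      hcomp.isBounded)).1 hx'
  · have : (gaugeSeminorm hbal hc habs) x = gauge K x := rfl
    rw [this, gauge_le_one_iff_mem_closure hc hnhds, hcomp.isClosed.closure_eq]

section dist

variable {V : Type} [AddCommGroup V] [Module ℝ V]

lemma Iso.dBM_le {C : ℝ} (hC : 1 ≤ C) {p r : Seminorm ℝ V} {K L : Set V}
    (hK : ∀ x, x ∈ K ↔ p x ≤ 1) (hL : ∀ x, x ∈ L ↔ r x ≤ 1) (h : Iso C p r) :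
    dBM K L ≤ ENNReal.ofReal C := by
  obtain ⟨T, hT⟩ := h
  refine sInf_le ⟨C, hC, rfl, T, ?_, ?_⟩
  · intro y hy
    refine ⟨T.symm y, ?_, T.apply_symm_apply y⟩
    rw [hK]
    have := (hT (T.symm y)).1
    rw [T.apply_symm_apply] at this
    exact this.trans ((hL y).1 hy)
  · rintro _ ⟨x, hx, rfl⟩
    rw [Set.mem_smul_set_iff_inv_smul_mem₀ (by linarith), hL, map_smul_eq_mul,
      Real.norm_eq_abs, abs_of_pos (by positivity)]
    have h1 := (hT x).2
    have h2 := (hK x).1 hx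
    rw [inv_mul_le_iff₀ (by linarith)]
    nlinarith

lemma iso_of_dBM_le {b : ℝ} {p r : Seminorm ℝ V} (hp : Def p) (hr : Def r) {K L : Set V}
    (hK : ∀ x, x ∈ K ↔ p x ≤ 1) (hL : ∀ x, x ∈ L ↔ r x ≤ 1)
    (h : dBM K L ≤ ENNReal.ofReal b) : Iso (|b| + 1) p r := by
  have h1 : dBM K L < ENNReal.ofReal (|b| + 1) := by
    refine h.trans_lt ?_
    rw [ENNReal.ofReal_lt_ofReal_iff (by positivity)]
    linarith [le_abs_self b]
  obtain ⟨s, ⟨t, ht1, rfl, T, hT1, hT2⟩, hs⟩ := sInf_lt_iff.1 h1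
  have ht : t < |b| + 1 := (ENNReal.ofReal_lt_ofReal_iff (by positivity)).1 hs
  refine ⟨T, fun x => ⟨?_, ?_⟩⟩
  · rcases (apply_nonneg r (T x)).lt_or_eq with h0 | h0
    · have h2 : (r (T x))⁻¹ • T x ∈ L := by
        rw [hL, map_smul_eq_mul, Real.norm_eq_abs, abs_of_pos (inv_pos.2 h0),
          inv_mul_cancel₀ h0.ne']
      obtain ⟨y, hy, hy2⟩ := hT1 h2
      have h3 : y = (r (T x))⁻¹ • x := by
        apply T.injective; rw [hy2, map_smul]
      rw [hK, h3, map_smul_eq_mul, Real.norm_eq_abs, abs_of_pos (inv_pos.2 h0),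
        inv_mul_le_iff₀ h0, mul_one] at hy
      exact hy
    · have h2 : T x = 0 := hr _ h0.symm
      have h3 : x = 0 := by apply T.injective; rw [h2, map_zero]
      rw [h3, map_zero]
      exact apply_nonneg r _
  · rcases (apply_nonneg p x).lt_or_eq with h0 | h0
    · have h2 : (p x)⁻¹ • x ∈ K := by
        rw [hK, map_smul_eq_mul, Real.norm_eq_abs, abs_of_pos (inv_pos.2 h0),
          inv_mul_cancel₀ h0.ne']
      have h3 := hT2 ⟨_, h2, rfl⟩
      rw [Set.mem_smul_set_iff_inv_smul_mem₀ (by linarith), hL, map_smul_eq_mul, map_smul,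
        map_smul_eq_mul, Real.norm_eq_abs, Real.norm_eq_abs, abs_of_pos (inv_pos.2 h0),
        abs_of_pos (by positivity), inv_mul_le_iff₀ (by linarith), inv_mul_le_iff₀ h0,
        mul_one] at h3
      nlinarith
    · have h2 : x = 0 := hp _ h0.symm
      rw [h2, map_zero, map_zero, map_zero, mul_zero]

end dist

lemma SectionsClose.hyp {k : ℕ} {b : ℝ} {n : ℕ} {K L : Set (Fin n → ℝ)}
    {p r : Seminorm ℝ (Fin n → ℝ)} (hp : Def p) (hr : Def r)
    (hK : ∀ x, x ∈ K ↔ p x ≤ 1) (hL : ∀ x, x ∈ L ↔ r x ≤ 1) (h : SectionsClose k b K L) :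
    Hyp (|b| + 1) k p r := by
  intro E hE
  exact iso_of_dBM_le (K := sec K E) (L := sec L E) (hp.comp _ Subtype.val_injective)
    (hr.comp _ Subtype.val_injective) (fun x => hK x) (fun x => hL x) (h E hE)

lemma Hyp.symm {V : Type*} [AddCommGroup V] [Module ℝ V] {b : ℝ} (hb : 0 < b) {k : ℕ}
    {p r : Seminorm ℝ V} (h : Hyp b k p r) : Hyp b k r p := fun E hE => (h E hE).symm hb

/-- The norm-level data of `CubeTimes`. -/
lemma CubeTimes.data {M : ℝ} (hM : 1 ≤ M) {k n : ℕ} {K : Set (Fin n → ℝ)}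
    {p : Seminorm ℝ (Fin n → ℝ)} (hp : Def p) (hK : ∀ x, x ∈ K ↔ p x ≤ 1)
    (h : CubeTimes M k K) : ∃ (i : (Fin (n - k) → ℝ) →ₗ[ℝ] (Fin n → ℝ))
      (φ : (Fin n → ℝ) →ₗ[ℝ] (Fin (n - k) → ℝ)), (∀ a, φ (i a) = a) ∧
      (∀ a, p (i a) ≤ ‖a‖) ∧ ∀ x, ‖φ x‖ ≤ M * p x := by
  obtain ⟨A, W, hW, h1, h2⟩ := h
  have hW0 : (0 : Fin k → ℝ) ∈ W := interior_subset hW.zero_mem_interior
  let i : (Fin (n - k) → ℝ) →ₗ[ℝ] (Fin n → ℝ) :=
    (A.symm : (Fin (n - k) → ℝ) × (Fin k → ℝ) →ₗ[ℝ] (Fin n → ℝ)) ∘ₗ LinearMap.inl ℝ _ _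
  let φ : (Fin n → ℝ) →ₗ[ℝ] (Fin (n - k) → ℝ) :=
    LinearMap.fst ℝ _ _ ∘ₗ (A : (Fin n → ℝ) →ₗ[ℝ] (Fin (n - k) → ℝ) × (Fin k → ℝ))
  have hi : ∀ a, A (i a) = (a, 0) := fun a => A.apply_symm_apply _
  refine ⟨i, φ, fun a => ?_, fun a => ?_, fun x => ?_⟩
  · show (A (i a)).1 = a
    rw [hi]
  · rcases (norm_nonneg a).lt_or_eq with h0 | h0
    · have h3 : i (‖a‖⁻¹ • a) ∈ K := by
        apply h1
        refine ⟨fun l => ?_, ?_⟩
        · rw [hi]
          show |‖a‖⁻¹ * a l| ≤ 1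
          rw [abs_mul, abs_of_pos (inv_pos.2 h0), inv_mul_le_iff₀ h0, mul_one]
          exact norm_le_pi_norm a l
        · rw [hi]; exact hW0
      rw [hK, map_smul, map_smul_eq_mul, Real.norm_eq_abs, abs_of_pos (inv_pos.2 h0),
        inv_mul_le_iff₀ h0, mul_one] at h3
      exact h3
    · have h3 : a = 0 := norm_eq_zero.1 h0.symm
      rw [h3, map_zero, map_zero]
      exact norm_nonneg _
  · rcases (apply_nonneg p x).lt_or_eq with h0 | h0
    · have h3 : (p x)⁻¹ • x ∈ K := by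
        rw [hK, map_smul_eq_mul, Real.norm_eq_abs, abs_of_pos (inv_pos.2 h0),
          inv_mul_cancel₀ h0.ne']
      have h4 := h2 h3
      rw [Set.mem_smul_set_iff_inv_smul_mem₀ (by linarith)] at h4
      have h5 := h4.1
      rw [pi_norm_le_iff_of_nonneg (by positivity)]
      intro l
      have h6 := h5 l
      rw [map_smul, map_smul] at h6
      have h7 : |M⁻¹ * ((p x)⁻¹ * (A x).1 l)| ≤ 1 := h6
      rw [abs_mul, abs_mul, abs_of_pos (inv_pos.2 h0), abs_of_pos (by positivity : (0 : ℝ) < M⁻¹),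
        inv_mul_le_iff₀ (by linarith), inv_mul_le_iff₀ h0, mul_one] at h7
      show |(A x).1 l| ≤ M * p x
      linarith
    · have h3 : x = 0 := hp _ h0.symm
      rw [h3, map_zero, map_zero, norm_zero, mul_zero]

/-- The norm-level data of `CubeLike`. -/
lemma CubeLike.data {M : ℝ} (hM : 1 ≤ M) {n : ℕ} {K : Set (Fin n → ℝ)}
    {p : Seminorm ℝ (Fin n → ℝ)} (hp : Def p) (hK : ∀ x, x ∈ K ↔ p x ≤ 1)
    (h : CubeLike M K) : Iso M p (normSeminorm ℝ (Fin n → ℝ)) := by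
  obtain ⟨A, h1, h2⟩ := h
  refine ⟨A, fun x => ⟨?_, ?_⟩⟩
  · show p x ≤ ‖A x‖
    rcases (norm_nonneg (A x)).lt_or_eq with h0 | h0
    · have h3 : ‖A x‖⁻¹ • x ∈ K := by
        apply h1
        intro l
        rw [map_smul]
        show |‖A x‖⁻¹ * A x l| ≤ 1
        rw [abs_mul, abs_of_pos (inv_pos.2 h0), inv_mul_le_iff₀ h0, mul_one]
        exact norm_le_pi_norm (A x) l
      rw [hK, map_smul_eq_mul, Real.norm_eq_abs, abs_of_pos (inv_pos.2 h0),
        inv_mul_le_iff₀ h0, mul_one] at h3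
      exact h3
    · have h3 : A x = 0 := norm_eq_zero.1 h0.symm
      have h4 : x = 0 := by apply A.injective; rw [h3, map_zero]
      rw [h4, map_zero]
      exact norm_nonneg _
  · show ‖A x‖ ≤ M * p x
    rcases (apply_nonneg p x).lt_or_eq with h0 | h0
    · have h3 : (p x)⁻¹ • x ∈ K := by
        rw [hK, map_smul_eq_mul, Real.norm_eq_abs, abs_of_pos (inv_pos.2 h0),
          inv_mul_cancel₀ h0.ne']
      have h4 := h2 h3
      rw [Set.mem_smul_set_iff_inv_smul_mem₀ (by linarith)] at h4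
      rw [pi_norm_le_iff_of_nonneg (by positivity)]
      intro l
      have h6 := h4 l
      rw [map_smul, map_smul] at h6
      have h7 : |M⁻¹ * ((p x)⁻¹ * A x l)| ≤ 1 := h6
      rw [abs_mul, abs_mul, abs_of_pos (inv_pos.2 h0), abs_of_pos (by positivity : (0 : ℝ) < M⁻¹),
        inv_mul_le_iff₀ (by linarith), inv_mul_le_iff₀ h0, mul_one] at h7
      show |A x l| ≤ M * p x
      linarith
    · have h3 : x = 0 := hp _ h0.symm
      rw [h3, map_zero, map_zero, norm_zero, mul_zero]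

end Pool.Agent.MP3e8c7a
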