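import Pool.Agent.Work.MP_3e8c7a.Step

/-!
# MP_3e8c7a_an: hyperplanes of a normed space are uniformly isomorphic
-/

namespace Pool.Agent.MP3e8c7a

open Module

variable {V : Type*} [AddCommGroup V] [Module ℝ V]

/-- Definite seminorm. -/
def Def (p : Seminorm ℝ V) : Prop := ∀ x, p x = 0 → x = 0

lemma Def.comp {W : Type*} [AddCommGroup W] [Module ℝ W] {p : Seminorm ℝ V} (hp : Def p)
    (u : W →ₗ[ℝ] V) (hu : Function.Injective u) : Def (p.comp u) := by
  intro x hx
  have : u x = 0 := hp _ hx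
  exact hu (by rw [this, map_zero])

lemma riesz_half [FiniteDimensional ℝ V] (p : Seminorm ℝ V) (hp : Def p)
    (D : Submodule ℝ V) (hD : ∃ x, x ∉ D) :
    ∃ x₀, x₀ ∉ D ∧ ∀ y ∈ D, (1 / 2) * p x₀ ≤ p (x₀ - y) := by
  let f : AddGroupNorm V :=
    { toFun := p
      map_zero' := map_zero p
      add_le' := map_add_le_add p
      neg' := map_neg_eq_map p
      eq_zero_of_map_eq_zero' := hp }
  let _ : NormedAddCommGroup V := f.toNormedAddCommGroup
  let _ : NormedSpace ℝ V :=
    { (inferInstance : Module ℝ V) with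
      norm_smul_le := fun a x => le_of_eq (map_smul_eq_mul p a x) }
  have hc : IsClosed (D : Set V) := D.closed_of_finiteDimensional
  exact riesz_lemma hc hD (by norm_num)

lemma hyper_split [FiniteDimensional ℝ V] (p : Seminorm ℝ V) (hp : Def p)
    (D : Submodule ℝ V) (hD : finrank ℝ D + 1 = finrank ℝ V) :
    Iso 5 (ds (p.comp D.subtype) (normSeminorm ℝ ℝ)) p := by
  have hne : ∃ x, x ∉ D := by
    by_contra h
    push Not at h
    have : D = ⊤ := (Submodule.eq_top_iff').2 h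
    rw [this, finrank_top] at hD
    omega
  obtain ⟨x₀, hx₀, hx1⟩ := riesz_half p hp D hne
  have hp0 : 0 < p x₀ := by
    rcases (apply_nonneg p x₀).lt_or_eq with h | h
    · exact h
    · exact absurd (hp x₀ h.symm ▸ D.zero_mem) hx₀
  let u : V := (p x₀)⁻¹ • x₀
  have hu : p u = 1 := by
    show p ((p x₀)⁻¹ • x₀) = 1
    rw [map_smul_eq_mul, Real.norm_eq_abs, abs_of_pos (inv_pos.2 hp0), inv_mul_cancel₀ hp0.ne']
  have huD : u ∉ D := by
    intro h
    have := D.smul_mem (p x₀) h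
    apply hx₀
    have e : p x₀ • u = x₀ := by
      show p x₀ • ((p x₀)⁻¹ • x₀) = x₀
      rw [smul_smul, mul_inv_cancel₀ hp0.ne', one_smul]
    rwa [e] at this
  -- the key estimate
  have key : ∀ (x : V) (_ : x ∈ D) (t : ℝ), |t| ≤ 2 * p (x + t • u) := by
    intro x hx t
    rcases eq_or_ne t 0 with rfl | ht
    · simp
    · have h1 := hx1 (-((p x₀ * t⁻¹) • x)) (D.neg_mem (D.smul_mem _ hx))
      have e : x + t • u = (t * (p x₀)⁻¹) • (x₀ - -((p x₀ * t⁻¹) • x)) := by
        show x + t • ((p x₀)⁻¹ • x₀) = _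
        rw [sub_neg_eq_add, smul_add, smul_smul, smul_smul]
        have : t * (p x₀)⁻¹ * (p x₀ * t⁻¹) = 1 := by
          field_simp
        rw [this, one_smul]; abel
      rw [e, map_smul_eq_mul, Real.norm_eq_abs, abs_mul, abs_of_pos (inv_pos.2 hp0)]
      have h2 := mul_le_mul_of_nonneg_left h1 (mul_nonneg (abs_nonneg t) (inv_pos.2 hp0).le)
      have e3 : |t| * (p x₀)⁻¹ * (1 / 2 * p x₀) = |t| / 2 := by
        field_simp
      rw [e3] at h2
      linarith
  let F : (D × ℝ) →ₗ[ℝ] V := D.subtype ∘ₗ LinearMap.fst ℝ D ℝ +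
    (LinearMap.toSpanSingleton ℝ V u) ∘ₗ LinearMap.snd ℝ D ℝ
  have hF : ∀ y : D × ℝ, F y = (y.1 : V) + y.2 • u := fun y => rfl
  have hFi : Function.Injective F := by
    rw [← LinearMap.ker_eq_bot, LinearMap.ker_eq_bot']
    intro y hy
    rw [hF] at hy
    have h1 := key y.1 y.1.2 y.2
    rw [hy, map_zero, mul_zero] at h1
    have h2 : y.2 = 0 := abs_eq_zero.1 (le_antisymm h1 (abs_nonneg _))
    rw [h2, zero_smul, add_zero] at hy
    exact Prod.ext (Subtype.ext hy) h2
  have hfr : finrank ℝ (D × ℝ) = finrank ℝ V := by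
    rw [Module.finrank_prod, Module.finrank_self, hD]
  let T : (D × ℝ) ≃ₗ[ℝ] V := LinearMap.linearEquivOfInjective F hFi hfr
  have hT : ∀ y, T y = (y.1 : V) + y.2 • u := fun y => by
    have : T y = F y := by simp [T]
    rw [this, hF]
  have := Iso.of_bounds (p := ds (p.comp D.subtype) (normSeminorm ℝ ℝ)) (r := p) T
    (A := 5) (B := 1) (by norm_num) ?_ ?_
  · rwa [mul_one] at this
  · intro y
    rw [hT]
    have h1 := key y.1 y.1.2 y.2
    have h2 : p (y.1 : V) ≤ p ((y.1 : V) + y.2 • u) + |y.2| := by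
      have h3 := map_sub_le_add p ((y.1 : V) + y.2 • u) (y.2 • u)
      rw [add_sub_cancel_right, map_smul_eq_mul, hu, mul_one, Real.norm_eq_abs] at h3
      exact h3
    show p (y.1 : V) + |y.2| ≤ 5 * p ((y.1 : V) + y.2 • u)
    linarith
  · intro y
    rw [hT]
    have h3 := map_add_le_add p (y.1 : V) (y.2 • u)
    rw [map_smul_eq_mul, hu, mul_one, Real.norm_eq_abs] at h3
    show p ((y.1 : V) + y.2 • u) ≤ 1 * (p (y.1 : V) + |y.2|)
    linarith

lemma comap_iso (p : Seminorm ℝ V) {D E : Submodule ℝ V} (h : D ≤ E) :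
    Iso 1 ((p.comp E.subtype).comp (D.comap E.subtype).subtype) (p.comp D.subtype) := by
  refine ⟨Submodule.comapSubtypeEquivOfLe h, fun x => ?_⟩
  have e : (p.comp D.subtype) (Submodule.comapSubtypeEquivOfLe h x) =
    ((p.comp E.subtype).comp (D.comap E.subtype).subtype) x := rfl
  rw [e, one_mul]
  exact ⟨le_refl _, le_refl _⟩

/-- Two hyperplanes of a normed space are 25-isomorphic. -/
theorem hyper_iso [FiniteDimensional ℝ V] (p : Seminorm ℝ V) (hp : Def p)
    (E₁ E₂ : Submodule ℝ V) (h₁ : finrank ℝ E₁ + 1 = finrank ℝ V)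
    (h₂ : finrank ℝ E₂ + 1 = finrank ℝ V) :
    Iso 25 (p.comp E₁.subtype) (p.comp E₂.subtype) := by
  rcases eq_or_ne E₁ E₂ with rfl | hne
  · exact (Iso.refl _).mono (by norm_num)
  · have hlt : E₁ < E₁ ⊔ E₂ := by
      refine lt_of_le_of_ne le_sup_left (fun h => hne ?_)
      have : E₂ ≤ E₁ := by rw [h]; exact le_sup_right
      exact (Submodule.eq_of_le_of_finrank_eq this (by omega)).symm
    have h3 := Submodule.finrank_lt_finrank_of_lt hlt
    have h4 := Submodule.finrank_sup_add_finrank_inf_eq E₁ E₂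
    have h5 := Submodule.finrank_le (E₁ ⊔ E₂)
    have key : ∀ (E : Submodule ℝ V), E₁ ⊓ E₂ ≤ E → finrank ℝ (E₁ ⊓ E₂ : Submodule ℝ V) + 1 =
        finrank ℝ E → Iso 5 (ds (p.comp (E₁ ⊓ E₂ : Submodule ℝ V).subtype)
          (normSeminorm ℝ ℝ)) (p.comp E.subtype) := by
      intro E hE hf
      have e1 : finrank ℝ ((E₁ ⊓ E₂).comap E.subtype) = finrank ℝ (E₁ ⊓ E₂ : Submodule ℝ V) :=
        LinearEquiv.finrank_eq (Submodule.comapSubtypeEquivOfLe hE)
      have e2 := hyper_split (p.comp E.subtype) (hp.comp _ Subtype.val_injective)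
        ((E₁ ⊓ E₂).comap E.subtype) (by rw [e1, hf])
      have e3 := ((comap_iso p hE).symm one_pos).ds (Iso.refl (normSeminorm ℝ ℝ))
      have e4 := e3.trans e2 (by norm_num)
      exact e4.mono (by norm_num)
    have k1 := key E₁ inf_le_left (by omega)
    have k2 := key E₂ inf_le_right (by omega)
    exact ((k1.symm (by norm_num)).trans k2 (by norm_num)).mono (by norm_num)

/-- Close `k+1`-sections give close `k`-sections. -/
theorem Hyp.pred [FiniteDimensional ℝ V] {b : ℝ} (hb : 1 ≤ b) {k : ℕ} {p r : Seminorm ℝ V}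
    (hp : Def p) (H : Hyp b (k + 1) p r) (hk : k + 1 ≤ finrank ℝ V) : Hyp (25 * b) k p r := by
  intro E hE
  have hne : ∃ x, x ∉ E := by
    by_contra h
    push Not at h
    have : E = ⊤ := (Submodule.eq_top_iff').2 h
    rw [this, finrank_top] at hE
    omega
  obtain ⟨v, hv⟩ := hne
  -- F = E + span v
  obtain ⟨F, hEF, hF⟩ : ∃ F : Submodule ℝ V, E ≤ F ∧ finrank ℝ F = k + 1 := by
    refine ⟨E ⊔ Submodule.span ℝ {v}, le_sup_left, ?_⟩
    have h1 := Submodule.finrank_sup_add_finrank_inf_eq E (Submodule.span ℝ {v})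
    have h2 : finrank ℝ (Submodule.span ℝ {v}) = 1 :=
      finrank_span_singleton (fun h => hv (h ▸ E.zero_mem))
    have h3 : E < E ⊔ Submodule.span ℝ {v} := by
      refine lt_of_le_of_ne le_sup_left (fun h => hv ?_)
      rw [h]
      exact Submodule.mem_sup_right (Submodule.mem_span_singleton_self v)
    have h4 := Submodule.finrank_lt_finrank_of_lt h3
    omega
  obtain ⟨T, hT⟩ := H F hF
  let E' : Submodule ℝ F := E.comap F.subtype
  have hE' : finrank ℝ E' = k := by
    rw [← hE]; exact LinearEquiv.finrank_eq (Submodule.comapSubtypeEquivOfLe hEF)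
  let E₂ : Submodule ℝ F := E'.comap (T : F →ₗ[ℝ] F)
  let S : E₂ ≃ₗ[ℝ] E' := T.ofSubmodule' E'
  have hE₂ : finrank ℝ E₂ = k := by
    rw [← hE']; exact LinearEquiv.finrank_eq S
  have i1 : Iso b ((p.comp F.subtype).comp E₂.subtype) ((r.comp F.subtype).comp E'.subtype) :=
    ⟨S, fun x => hT (x : F)⟩
  have i2 := hyper_iso (p.comp F.subtype) (hp.comp _ Subtype.val_injective) E' E₂
    (by rw [hE', hF]) (by rw [hE₂, hF])
  have i3 := ((comap_iso p hEF).symm one_pos).trans i2 (by norm_num)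
  have i4 := i3.trans i1 (by linarith)
  have i5 := i4.trans (comap_iso r hEF) (by norm_num)
  exact i5.mono (le_of_eq (by ring))

end Pool.Agent.MP3e8c7a
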