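import Pool.Agent.Work.MP_3e8c7a.Base

/-!
# MP_3e8c7a_an: the step over a complemented subspace, Hahn Banach, hyperplanes
-/

namespace Pool.Agent.MP3e8c7a

open Module

section step

variable {V A : Type*} [AddCommGroup V] [Module ℝ V] [AddCommGroup A] [Module ℝ A]

/-- The isomorphism `x ↦ (φ x, x - i (ψ x))` onto `A × ker ψ`, with inverse
`(a, z) ↦ i a + (z - i (φ z))`. -/
noncomputable def split (i : A →ₗ[ℝ] V) (φ ψ : V →ₗ[ℝ] A) (hφ : ∀ a, φ (i a) = a)
    (hψ : ∀ a, ψ (i a) = a) : V ≃ₗ[ℝ] A × LinearMap.ker ψ where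
  toFun x := (φ x, ⟨x - i (ψ x), by simp [LinearMap.mem_ker, hψ]⟩)
  map_add' x y := by
    refine Prod.ext (map_add φ x y) (Subtype.ext ?_)
    simp only [map_add, Prod.snd_add, Submodule.coe_add]
    module
  map_smul' c x := by
    refine Prod.ext (map_smul φ c x) (Subtype.ext ?_)
    simp only [map_smul, Prod.smul_snd, Submodule.coe_smul, RingHom.id_apply]
    module
  invFun y := i y.1 + ((y.2 : V) - i (φ (y.2 : V)))
  left_inv x := by
    simp only [map_sub, hφ]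
    module
  right_inv y := by
    have hz : ψ (y.2 : V) = 0 := y.2.2
    refine Prod.ext ?_ (Subtype.ext ?_)
    · simp only [map_add, map_sub, hφ]
      abel
    · simp only [map_add, map_sub, hψ, hz, map_zero]
      module

@[simp] lemma split_fst (i : A →ₗ[ℝ] V) (φ ψ : V →ₗ[ℝ] A) (hφ : ∀ a, φ (i a) = a)
    (hψ : ∀ a, ψ (i a) = a) (x : V) : (split i φ ψ hφ hψ x).1 = φ x := rfl

@[simp] lemma split_snd (i : A →ₗ[ℝ] V) (φ ψ : V →ₗ[ℝ] A) (hφ : ∀ a, φ (i a) = a)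
    (hψ : ∀ a, ψ (i a) = a) (x : V) : ((split i φ ψ hφ hψ x).2 : V) = x - i (ψ x) := rfl

/-- `p` splits along `i, φ`. -/
lemma splitP {lam : ℝ} {p : Seminorm ℝ V} (i : A →ₗ[ℝ] V) (φ ψ : V →ₗ[ℝ] A)
    (hφ : ∀ a, φ (i a) = a) (hψ : ∀ a, ψ (i a) = a) (hP : ∀ x, p (i (φ x)) ≤ lam * p x) :
    Iso (1 + 2 * lam) p (ds (p.comp i)
      (p.comp ((LinearMap.id - i ∘ₗ φ) ∘ₗ (LinearMap.ker ψ).subtype))) := by
  have := Iso.of_bounds (p := p) (r := ds (p.comp i)
      (p.comp ((LinearMap.id - i ∘ₗ φ) ∘ₗ (LinearMap.ker ψ).subtype)))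
      (split i φ ψ hφ hψ) (A := 1) (B := 1 + 2 * lam) one_pos ?_ ?_
  · rwa [one_mul] at this
  · intro x
    have e : (x - i (ψ x)) - i (φ (x - i (ψ x))) = x - i (φ x) := by
      simp only [map_sub, hφ]; module
    show p x ≤ 1 * (p (i (φ x)) + p ((x - i (ψ x)) - i (φ (x - i (ψ x)))))
    rw [e]
    have h1 := map_add_le_add p (i (φ x)) (x - i (φ x))
    have e2 : i (φ x) + (x - i (φ x)) = x := by abel
    rw [e2] at h1
    linarith
  · intro x
    have e : (x - i (ψ x)) - i (φ (x - i (ψ x))) = x - i (φ x) := by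
      simp only [map_sub, hφ]; module
    show p (i (φ x)) + p ((x - i (ψ x)) - i (φ (x - i (ψ x)))) ≤ (1 + 2 * lam) * p x
    rw [e]
    have h1 := map_sub_le_add p x (i (φ x))
    have h2 := hP x
    linarith

/-- `r` splits along `i, ψ`. -/
lemma splitR {lam : ℝ} {r : Seminorm ℝ V} (i : A →ₗ[ℝ] V) (ψ : V →ₗ[ℝ] A)
    (hψ : ∀ a, ψ (i a) = a) (hQ : ∀ x, r (i (ψ x)) ≤ lam * r x) :
    Iso (1 + 2 * lam) r (ds (r.comp i) (r.comp (LinearMap.ker ψ).subtype)) := by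
  have := Iso.of_bounds (p := r) (r := ds (r.comp i) (r.comp (LinearMap.ker ψ).subtype))
      (split i ψ ψ hψ hψ) (A := 1) (B := 1 + 2 * lam) one_pos ?_ ?_
  · rwa [one_mul] at this
  · intro x
    show r x ≤ 1 * (r (i (ψ x)) + r (x - i (ψ x)))
    have h1 := map_add_le_add r (i (ψ x)) (x - i (ψ x))
    have e2 : i (ψ x) + (x - i (ψ x)) = x := by abel
    rw [e2] at h1
    linarith
  · intro x
    show r (i (ψ x)) + r (x - i (ψ x)) ≤ (1 + 2 * lam) * r x
    have h1 := map_sub_le_add r x (i (ψ x))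
    have h2 := hQ x
    linarith

/-- The constant of the tilt and scale lemma. -/
noncomputable def tc (b lam : ℝ) : ℝ := 4 * b ^ 3 * (1 + 2 * lam) ^ 6

lemma one_le_tc {b lam : ℝ} (hb : 1 ≤ b) (hlam : 1 ≤ lam) : 1 ≤ tc b lam := by
  have h1 : 1 ≤ b ^ 3 := one_le_pow₀ hb
  have h2 : 1 ≤ (1 + 2 * lam) ^ 6 := one_le_pow₀ (by linarith)
  unfold tc
  nlinarith

/-- The kernel of `ψ` with `r` against the kernel with the `p` norm of the other complement. -/
lemma ker_iso [FiniteDimensional ℝ V] {b lam : ℝ} (hb : 1 ≤ b) (hlam : 1 ≤ lam) {k : ℕ}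
    {p r : Seminorm ℝ V} (H : Hyp b k p r) (i : A →ₗ[ℝ] V) (φ ψ : V →ₗ[ℝ] A)
    (hφ : ∀ a, φ (i a) = a) (hψ : ∀ a, ψ (i a) = a) (hP : ∀ x, p (i (φ x)) ≤ lam * p x)
    (hQ : ∀ x, r (i (ψ x)) ≤ lam * r x) (hk : finrank ℝ (LinearMap.ker ψ) = k) :
    Iso (tc b lam) (r.comp (LinearMap.ker ψ).subtype)
      (p.comp ((LinearMap.id - i ∘ₗ φ) ∘ₗ (LinearMap.ker ψ).subtype)) := by
  have h := tilt (B := PUnit) hb hlam H (i ∘ₗ φ) (i ∘ₗ ψ)
    (fun x => by simp [hφ]) (fun x => by simp [hψ]) hP hQ (LinearMap.ker ψ)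
    (fun z hz => by
      have : ψ z = 0 := hz
      simp [this]) (0 : PUnit →ₗ[ℝ] V) (fun a b _ => Subsingleton.elim a b)
    (fun y => by simp) (by
      rw [Module.finrank_zero_of_subsingleton (R := ℝ) (M := PUnit), add_zero, hk])
  obtain ⟨T, hT⟩ := h
  let e : (LinearMap.ker ψ × PUnit) ≃ₗ[ℝ] LinearMap.ker ψ := LinearEquiv.prodUnique
  refine ⟨(e.symm.trans T).trans e, fun z => ?_⟩
  have h1 := hT (z, PUnit.unit)
  have e1 : (ds (r.comp (LinearMap.ker ψ).subtype) (r.comp (0 : PUnit →ₗ[ℝ] V)))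
      (z, PUnit.unit) = (r.comp (LinearMap.ker ψ).subtype) z := by
    simp [ds_apply]
  have e2 : ∀ y : LinearMap.ker ψ × PUnit,
      (ds (p.comp ((LinearMap.id - i ∘ₗ φ) ∘ₗ (LinearMap.ker ψ).subtype))
        (p.comp (0 : PUnit →ₗ[ℝ] V))) y =
      (p.comp ((LinearMap.id - i ∘ₗ φ) ∘ₗ (LinearMap.ker ψ).subtype)) (e y) := by
    intro y
    simp [ds_apply, e]
  rw [e1, e2] at h1
  exact h1

/-- The step constant. -/
noncomputable def stc (b lam c : ℝ) : ℝ := (1 + 2 * lam) * (c + tc b lam) * (1 + 2 * lam)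

lemma one_le_stc {b lam c : ℝ} (hb : 1 ≤ b) (hlam : 1 ≤ lam) (hc : 1 ≤ c) :
    1 ≤ stc b lam c := by
  have h := one_le_tc hb hlam
  unfold stc
  nlinarith [mul_pos (by linarith : 0 < 1 + 2 * lam) (by linarith : 0 < c + tc b lam)]

/-- **Step lemma**: a complemented subspace with isomorphic norms, remaining dimension `k`. -/
theorem step [FiniteDimensional ℝ V] {b lam c : ℝ} (hb : 1 ≤ b) (hlam : 1 ≤ lam) (hc : 1 ≤ c)
    {k : ℕ} {p r : Seminorm ℝ V} (H : Hyp b k p r) (i : A →ₗ[ℝ] V) (φ ψ : V →ₗ[ℝ] A)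
    (hφ : ∀ a, φ (i a) = a) (hψ : ∀ a, ψ (i a) = a) (hP : ∀ x, p (i (φ x)) ≤ lam * p x)
    (hQ : ∀ x, r (i (ψ x)) ≤ lam * r x) (hk : finrank ℝ (LinearMap.ker ψ) = k)
    (hA : Iso c (p.comp i) (r.comp i)) : Iso (stc b lam c) p r := by
  have h1 := splitP (p := p) i φ ψ hφ hψ hP
  have h2 := splitR (r := r) i ψ hψ hQ
  have h3 := (ker_iso hb hlam H i φ ψ hφ hψ hP hQ hk).symm
    (lt_of_lt_of_le one_pos (one_le_tc hb hlam))
  have ht := one_le_tc hb hlam
  have h4 := (hA.mono (by linarith : c ≤ c + tc b lam)).ds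
    (h3.mono (by linarith : tc b lam ≤ c + tc b lam))
  have h5 := (h1.trans h4 (by linarith)).trans (h2.symm (by linarith)) (by linarith)
  exact h5

end step

section hahnbanach

variable {V A : Type*} [AddCommGroup V] [Module ℝ V] [AddCommGroup A] [Module ℝ A]

/-- Extension of a functional from the range of `i`. -/
lemma exists_ext (r : Seminorm ℝ V) (i : A →ₗ[ℝ] V) (hi : Function.Injective i) {C : ℝ}
    (hC : 0 ≤ C) (f : A →ₗ[ℝ] ℝ) (hf : ∀ a, |f a| ≤ C * r (i a)) :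
    ∃ g : V →ₗ[ℝ] ℝ, (∀ a, g (i a) = f a) ∧ ∀ x, |g x| ≤ C * r x := by
  let e : A ≃ₗ[ℝ] LinearMap.range i := LinearEquiv.ofInjective i hi
  let F : V →ₗ.[ℝ] ℝ := ⟨LinearMap.range i, f ∘ₗ (e.symm : LinearMap.range i →ₗ[ℝ] A)⟩
  obtain ⟨g, hg1, hg2⟩ := exists_extension_of_le_sublinear F (fun x => C * r x)
    (fun c hc x => by
      show C * r (c • x) = c * (C * r x)
      rw [map_smul_eq_mul, Real.norm_eq_abs, abs_of_pos hc]; ring)
    (fun x y => by
      have := map_add_le_add r x y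
      show C * r (x + y) ≤ C * r x + C * r y
      nlinarith)
    (fun x => by
      have h1 := hf (e.symm x)
      have h2 : i (e.symm x) = (x : V) := by
        have := congrArg (fun z : LinearMap.range i => (z : V)) (e.apply_symm_apply x)
        exact this
      rw [h2] at h1
      exact (le_abs_self _).trans h1)
  refine ⟨g, fun a => ?_, fun x => ?_⟩
  · have := hg1 (e a)
    have h2 : ((e a : LinearMap.range i) : V) = i a := rfl
    have h3 : F (e a) = f a := by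
      show f (e.symm (e a)) = f a
      rw [LinearEquiv.symm_apply_apply]
    rw [← h2, ← h3]
    exact this
  · rw [abs_le]
    constructor
    · have := hg2 (-x)
      rw [map_neg, map_neg_eq_map] at this
      linarith
    · exact hg2 x

/-- A copy of `ℓ_∞` is complemented. -/
theorem exists_proj {ι : Type*} [Fintype ι] {c : ℝ} (hc : 0 ≤ c) (r : Seminorm ℝ V)
    (i : A →ₗ[ℝ] V) (hi : Function.Injective i)
    (h : Iso c (r.comp i) (normSeminorm ℝ (ι → ℝ))) :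
    ∃ ψ : V →ₗ[ℝ] A, (∀ a, ψ (i a) = a) ∧ ∀ x, r (i (ψ x)) ≤ c * r x := by
  obtain ⟨T, hT⟩ := h
  have h1 : ∀ j : ι, ∃ g : V →ₗ[ℝ] ℝ, (∀ a, g (i a) = T a j) ∧ ∀ x, |g x| ≤ c * r x := by
    intro j
    refine exists_ext r i hi hc ((LinearMap.proj j) ∘ₗ (T : A →ₗ[ℝ] (ι → ℝ))) (fun a => ?_)
    have := (hT a).2
    have h2 : |T a j| ≤ ‖T a‖ := norm_le_pi_norm (T a) j
    exact h2.trans this
  choose g hg1 hg2 using h1
  refine ⟨(T.symm : (ι → ℝ) →ₗ[ℝ] A) ∘ₗ LinearMap.pi g, fun a => ?_, fun x => ?_⟩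
  · have : LinearMap.pi g (i a) = T a := by
      funext j; exact hg1 j a
    show T.symm (LinearMap.pi g (i a)) = a
    rw [this, LinearEquiv.symm_apply_apply]
  · have h2 := (hT (T.symm (LinearMap.pi g x))).1
    rw [LinearEquiv.apply_symm_apply] at h2
    have h3 : ‖LinearMap.pi g x‖ ≤ c * r x := by
      rw [pi_norm_le_iff_of_nonneg (mul_nonneg hc (apply_nonneg r x))]
      intro j
      exact hg2 j x
    exact h2.trans h3

end hahnbanach

end Pool.Agent.MP3e8c7a
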